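import Mathlib
import Pool.Agent.H37.KR.Defs

/-!
The cone lemma for an obstruction which is the transfer of a cocycle.
-/

set_option autoImplicit false

namespace Pool.Agent.H67.KR

open Finset Pool.Agent.W555.KS Pool.Agent.Y131.KS Pool.Agent.H37.KR

variable {n : ℕ}

theorem swapSum {M : Type*} [AddCommMonoid M] (F : Finset (Fin n) → Fin n → M) :
    ∑ σ, ∑ v ∈ σᶜ, F σ v = ∑ σ, ∑ v ∈ σ, F (σ.erase v) v := by
  rw [Finset.sum_sigma', Finset.sum_sigma']
  refine Finset.sum_bij' (fun x _ => ⟨insert x.2 x.1, x.2⟩) (fun x _ => ⟨x.1.erase x.2, x.2⟩)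
    ?_ ?_ ?_ ?_ ?_
  · rintro ⟨σ, v⟩ h
    simp
  · rintro ⟨σ, v⟩ h
    simp
  · rintro ⟨σ, v⟩ h
    simp only [mem_sigma, mem_univ, mem_compl, true_and] at h
    simp [erase_insert h]
  · rintro ⟨σ, v⟩ h
    simp only [mem_sigma, mem_univ, true_and] at h
    simp [insert_erase h]
  · rintro ⟨σ, v⟩ h
    simp only [mem_sigma, mem_univ, mem_compl, true_and] at h
    simp [erase_insert h]

theorem L1 (D : ℕ) (c H : Finset (Fin n) → Finset (Fin n) → ZMod 2) (τ : Finset (Fin n)) :
    ∑ σ, (if Disjoint σ τ ∧ σ.card + τ.card = D then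
      c σ τ * ∑ v ∈ (σ ∪ τ)ᶜ, H (insert v σ) τ else 0) =
    ∑ σ, (if Disjoint σ τ ∧ σ.card + τ.card = D + 1 then
      (∑ v ∈ σ, c (σ.erase v) τ) * H σ τ else 0) := by
  classical
  let F : Finset (Fin n) → Fin n → ZMod 2 := fun σ v =>
    if v ∉ τ ∧ Disjoint σ τ ∧ σ.card + τ.card = D then c σ τ * H (insert v σ) τ else 0
  have e1 : ∀ σ, (if Disjoint σ τ ∧ σ.card + τ.card = D then
      c σ τ * ∑ v ∈ (σ ∪ τ)ᶜ, H (insert v σ) τ else 0) = ∑ v ∈ σᶜ, F σ v := by
    intro σ
    split_ifs with h
    · have hs : (σ ∪ τ)ᶜ = σᶜ.filter (fun v => v ∉ τ) := by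
        ext v
        simp only [mem_compl, mem_union, mem_filter]
        tauto
      rw [hs, sum_filter, mul_sum]
      refine sum_congr rfl fun v _ => ?_
      simp only [F]
      by_cases hv : v ∉ τ
      · rw [if_pos hv, if_pos ⟨hv, h⟩]
      · rw [if_neg hv, if_neg (fun h' => hv h'.1), mul_zero]
    · symm
      refine sum_eq_zero fun v _ => ?_
      simp only [F]
      rw [if_neg (fun h' => h h'.2)]
  rw [sum_congr rfl fun σ _ => e1 σ, swapSum]
  refine sum_congr rfl fun σ _ => ?_
  split_ifs with h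
  · rw [sum_mul]
    refine sum_congr rfl fun v hv => ?_
    simp only [F]
    rw [if_pos, insert_erase hv]
    refine ⟨disjoint_left.1 h.1 hv, h.1.mono_left (erase_subset _ _), ?_⟩
    have := card_erase_of_mem hv
    have h2 : 0 < σ.card := card_pos.2 ⟨v, hv⟩
    have h3 := h.2
    omega
  · refine sum_eq_zero fun v hv => ?_
    simp only [F]
    rw [if_neg]
    rintro ⟨h1, h2, h3⟩
    apply h
    refine ⟨?_, ?_⟩
    · rw [← insert_erase hv, disjoint_insert_left]
      exact ⟨h1, h2⟩
    · have := card_erase_of_mem hv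
      have h2 : 0 < σ.card := card_pos.2 ⟨v, hv⟩
      omega

theorem pr2_dd (D : ℕ) (c H : Finset (Fin n) → Finset (Fin n) → ZMod 2) :
    pr2 D c (dd H) = ∑ σ, ∑ τ, if Disjoint σ τ ∧ σ.card + τ.card = D + 1 then
      (∑ v ∈ σ, c (σ.erase v) τ + ∑ v ∈ τ, c σ (τ.erase v)) * H σ τ else 0 := by
  classical
  have e1 : pr2 D c (dd H) =
      (∑ σ, ∑ τ, if Disjoint σ τ ∧ σ.card + τ.card = D then
        c σ τ * ∑ v ∈ (σ ∪ τ)ᶜ, H (insert v σ) τ else 0) +
      (∑ σ, ∑ τ, if Disjoint σ τ ∧ σ.card + τ.card = D then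
        c σ τ * ∑ v ∈ (σ ∪ τ)ᶜ, H σ (insert v τ) else 0) := by
    unfold pr2 dd
    rw [← sum_add_distrib]
    refine sum_congr rfl fun σ _ => ?_
    rw [← sum_add_distrib]
    refine sum_congr rfl fun τ _ => ?_
    split_ifs with h
    · rw [sum_add_distrib, mul_add]
    · rw [add_zero]
  have e2 : (∑ σ, ∑ τ, if Disjoint σ τ ∧ σ.card + τ.card = D then
        c σ τ * ∑ v ∈ (σ ∪ τ)ᶜ, H (insert v σ) τ else 0) =
      ∑ σ, ∑ τ, if Disjoint σ τ ∧ σ.card + τ.card = D + 1 then
      (∑ v ∈ σ, c (σ.erase v) τ) * H σ τ else 0 := by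
    rw [sum_comm]
    rw [sum_congr rfl fun τ _ => L1 D c H τ]
    rw [sum_comm]
  have e3 : (∑ σ, ∑ τ, if Disjoint σ τ ∧ σ.card + τ.card = D then
        c σ τ * ∑ v ∈ (σ ∪ τ)ᶜ, H σ (insert v τ) else 0) =
      ∑ σ, ∑ τ, if Disjoint σ τ ∧ σ.card + τ.card = D + 1 then
      (∑ v ∈ τ, c σ (τ.erase v)) * H σ τ else 0 := by
    refine sum_congr rfl fun σ _ => ?_
    have h := L1 D (fun a b => c b a) (fun a b => H b a) σ
    have h1 : ∀ (E : ℕ) (τ : Finset (Fin n)), (Disjoint σ τ ∧ σ.card + τ.card = E) ↔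
        (Disjoint τ σ ∧ τ.card + σ.card = E) := fun E τ => by
      rw [disjoint_comm, add_comm]
    simp only [h1]
    rw [← h]
    refine sum_congr rfl fun τ _ => ?_
    rw [union_comm]
  rw [e1, e2, e3, ← sum_add_distrib]
  refine sum_congr rfl fun σ _ => ?_
  rw [← sum_add_distrib]
  refine sum_congr rfl fun τ _ => ?_
  split_ifs with h
  · rw [add_mul]
  · rw [add_zero]

theorem pr2_add (D : ℕ) (c H H' : Finset (Fin n) → Finset (Fin n) → ZMod 2) :
    pr2 D c (fun σ τ => H σ τ + H' σ τ) = pr2 D c H + pr2 D c H' := by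
  unfold pr2
  rw [← sum_add_distrib]
  refine sum_congr rfl fun σ _ => ?_
  rw [← sum_add_distrib]
  refine sum_congr rfl fun τ _ => ?_
  split_ifs with h
  · rw [mul_add]
  · rw [add_zero]

/-- old vertices -/
def rs (σ : Finset (Fin (n + 1))) : Finset (Fin n) := univ.filter (fun i : Fin n => i.castSucc ∈ σ)

theorem rs_mp (σ : Finset (Fin n)) : rs (mp σ) = σ := by
  ext v
  rw [rs, mem_filter, castSucc_mem_mp]
  simp

theorem rs_ins (σ : Finset (Fin n)) : rs (insert (Fin.last n) (mp σ)) = σ := by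
  ext v
  rw [rs, mem_filter, mem_insert, castSucc_mem_mp]
  simp [(Fin.castSucc_lt_last v).ne]

theorem mp_rs {σ : Finset (Fin (n + 1))} (h : Fin.last n ∉ σ) : mp (rs σ) = σ := by
  ext v
  refine Fin.lastCases ?_ (fun v => ?_) v
  · simp only [last_notMem_mp, h]
  · rw [castSucc_mem_mp, rs, mem_filter]
    simp

theorem ins_rs {σ : Finset (Fin (n + 1))} (h : Fin.last n ∈ σ) :
    insert (Fin.last n) (mp (rs σ)) = σ := by
  ext v
  refine Fin.lastCases ?_ (fun v => ?_) v
  · simp only [mem_insert, true_or, h]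
  · rw [mem_insert, castSucc_mem_mp, rs, mem_filter]
    simp [(Fin.castSucc_lt_last v).ne]

theorem sum_sets_succ {M : Type*} [AddCommMonoid M] (f : Finset (Fin (n + 1)) → M) :
    ∑ U, f U = ∑ U : Finset (Fin n), f (mp U) +
        ∑ W : Finset (Fin n), f (insert (Fin.last n) (mp W)) := by
  classical
  rw [← sum_filter_add_sum_filter_not univ (fun U : Finset (Fin (n + 1)) => Fin.last n ∉ U)]
  congr 1
  · refine sum_bij' (fun U _ => rs U) (fun U _ => mp U) ?_ ?_ ?_ ?_ ?_
    · intro U _; exact mem_univ _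
    · intro U _
      rw [mem_filter]
      exact ⟨mem_univ _, last_notMem_mp _⟩
    · intro U hU
      exact mp_rs (mem_filter.1 hU).2
    · intro U _
      exact rs_mp U
    · intro U hU
      rw [mp_rs (mem_filter.1 hU).2]
  · refine sum_bij' (fun U _ => rs U) (fun U _ => insert (Fin.last n) (mp U)) ?_ ?_ ?_ ?_ ?_
    · intro U _; exact mem_univ _
    · intro U _
      rw [mem_filter]
      exact ⟨mem_univ _, not_not.2 (mem_insert_self _ _)⟩
    · intro U hU
      exact ins_rs (not_not.1 (mem_filter.1 hU).2)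
    · intro U _
      exact rs_ins U
    · intro U hU
      rw [ins_rs (not_not.1 (mem_filter.1 hU).2)]

theorem cn_mp (c : Finset (Fin n) → Finset (Fin n) → ZMod 2) (σ : Finset (Fin n))
    (τ : Finset (Fin (n + 1))) : cn c (mp σ) τ = 0 := by
  unfold cn
  rw [if_neg (last_notMem_mp _)]

theorem cn_ins (c : Finset (Fin n) → Finset (Fin n) → ZMod 2) (σ τ : Finset (Fin n)) :
    cn c (insert (Fin.last n) (mp σ)) (mp τ) = c σ τ := by
  unfold cn
  rw [if_pos (mem_insert_self _ _)]
  show c (rs _) (rs _) = _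
  rw [rs_ins, rs_mp]

theorem pr2_cone (D : ℕ) (c : Finset (Fin n) → Finset (Fin n) → ZMod 2)
    (Z' : Finset (Fin (n + 1)) → Finset (Fin (n + 1)) → ZMod 2) :
    pr2 (D + 1) (cn c) Z' =
      pr2 D c (fun σ τ => Z' (insert (Fin.last n) (mp σ)) (mp τ)) := by
  classical
  unfold pr2
  rw [sum_sets_succ]
  have e1 : ∑ U : Finset (Fin n), ∑ τ, (if Disjoint (mp U) τ ∧ (mp U).card + τ.card = D + 1 then
      cn c (mp U) τ * Z' (mp U) τ else 0) = 0 := by
    refine sum_eq_zero fun U _ => sum_eq_zero fun τ _ => ?_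
    rw [cn_mp, zero_mul, ite_self]
  rw [e1, zero_add]
  refine sum_congr rfl fun σ _ => ?_
  rw [sum_sets_succ]
  have e2 : ∑ W : Finset (Fin n), (if Disjoint (insert (Fin.last n) (mp σ))
      (insert (Fin.last n) (mp W)) ∧ (insert (Fin.last n) (mp σ)).card +
        (insert (Fin.last n) (mp W)).card = D + 1 then
      cn c (insert (Fin.last n) (mp σ)) (insert (Fin.last n) (mp W)) *
        Z' (insert (Fin.last n) (mp σ)) (insert (Fin.last n) (mp W)) else 0) = 0 := by
    refine sum_eq_zero fun W _ => ?_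
    rw [if_neg]
    rintro ⟨h, _⟩
    exact disjoint_left.1 h (mem_insert_self _ _) (mem_insert_self _ _)
  rw [e2, add_zero]
  refine sum_congr rfl fun τ _ => ?_
  rw [cn_ins]
  have h1 : (Disjoint (insert (Fin.last n) (mp σ)) (mp τ) ∧
      (insert (Fin.last n) (mp σ)).card + (mp τ).card = D + 1) ↔
      (Disjoint σ τ ∧ σ.card + τ.card = D) := by
    rw [card_insert_of_notMem (last_notMem_mp _), card_map, card_map, disjoint_insert_left]
    constructor
    · rintro ⟨⟨_, h⟩, h'⟩
      exact ⟨(disjoint_map _).1 h, by omega⟩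
    · rintro ⟨h, h'⟩
      exact ⟨⟨last_notMem_mp _, (disjoint_map _).2 h⟩, by omega⟩
  simp only [h1]

/-- **The cone**, obstruction. -/
theorem cone_tr {L : Finset (Finset (Fin n))} {D : ℕ}
    {c : Finset (Fin n) → Finset (Fin n) → ZMod 2} (hL : IsCx L) (h : TrV L D c)
    (hclo : Clo L D c) : TrV (coneCx L) (D + 1) (cn c) := by
  classical
  intro Z' hsym hsupp hcyc
  rw [pr2_cone]
  set A : Finset (Fin n) → Finset (Fin n) → ZMod 2 :=
    fun σ τ => Z' (insert (Fin.last n) (mp σ)) (mp τ) with hA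
  set B : Finset (Fin n) → Finset (Fin n) → ZMod 2 := fun σ τ => Z' (mp σ) (mp τ) with hB
  have hBs : ∀ σ τ, B σ τ = B τ σ := fun σ τ => hsym _ _
  have hA' : ∀ σ τ, Z' (mp σ) (insert (Fin.last n) (mp τ)) = A τ σ := fun σ τ => hsym _ _
  -- the two cycle conditions
  have c1 : ∀ ρ τ : Finset (Fin n), Disjoint ρ τ → ρ.card + τ.card = D →
      A ρ τ + A τ ρ + dd B ρ τ = 0 := by
    intro ρ τ hd hc
    have h1 := hcyc (mp ρ) (mp τ) ((disjoint_map _).2 hd) (by rw [card_map, card_map, hc])
    rw [sum_compl1] at h1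
    rw [hA'] at h1
    rw [← h1]
    congr 1
    unfold dd
    refine sum_congr rfl fun v _ => ?_
    rw [← mp_insert, ← mp_insert]
  have c2 : ∀ ρ τ : Finset (Fin n), Disjoint ρ τ → ρ.card + τ.card + 1 = D →
      dd A ρ τ = 0 := by
    intro ρ τ hd hc
    have h1 := hcyc (insert (Fin.last n) (mp ρ)) (mp τ) (by
      rw [disjoint_insert_left]
      exact ⟨last_notMem_mp _, (disjoint_map _).2 hd⟩) (by
      rw [card_insert_of_notMem (last_notMem_mp _), card_map, card_map]
      omega)
    rw [sum_compl2] at h1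
    rw [← h1]
    unfold dd
    refine sum_congr rfl fun v _ => ?_
    simp only [hA]
    rw [mp_insert, mp_insert, insert_comm]
  -- the symmetric cycle of `L`
  have hz := h (fun σ τ => if Disjoint σ τ ∧ σ.card + τ.card = D then dd (half B) σ τ + A σ τ
    else 0) ?_ ?_ ?_
  · -- conclusion
    have hp : pr2 D c (fun σ τ => if Disjoint σ τ ∧ σ.card + τ.card = D then
        dd (half B) σ τ + A σ τ else 0) = pr2 D c A := by
      have h1 : pr2 D c (fun σ τ => if Disjoint σ τ ∧ σ.card + τ.card = D then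
        dd (half B) σ τ + A σ τ else 0) = pr2 D c (fun σ τ => dd (half B) σ τ + A σ τ) := by
        unfold pr2
        refine sum_congr rfl fun σ _ => sum_congr rfl fun τ _ => ?_
        by_cases h : Disjoint σ τ ∧ σ.card + τ.card = D
        · simp only [if_pos h]
        · simp only [if_neg h]
      rw [h1, pr2_add, pr2_dd]
      have h2 : (∑ σ, ∑ τ, if Disjoint σ τ ∧ σ.card + τ.card = D + 1 then
          (∑ v ∈ σ, c (σ.erase v) τ + ∑ v ∈ τ, c σ (τ.erase v)) * half B σ τ else 0) = 0 := by
        refine sum_eq_zero fun σ _ => sum_eq_zero fun τ _ => ?_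
        split_ifs with h3
        · by_cases h4 : half B σ τ = 0
          · rw [h4, mul_zero]
          · have h5 : B σ τ ≠ 0 := half_ne h4
            have h6 := hsupp _ _ h5
            rw [mem_cone, mem_cone] at h6
            rw [hclo σ h6.1 τ h6.2 h3.1 h3.2, zero_mul]
        · rfl
      rw [h2, zero_add]
    rw [hp] at hz
    have e0 : ev D (dd (half B)) + ev D A = pr2 D c A := by
      rw [← ev_add, ← hz]
      unfold ev
      refine sum_congr rfl fun U hU => ?_
      rw [if_pos ⟨disj_parts U, by rw [card_parts]; exact (mem_powersetCard.1 hU).2⟩]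
    have e1 : ev D (dd (half B)) = ev (D + 1) B := by
      rw [ev_dd]
      unfold ev
      refine sum_congr rfl fun U hU => ?_
      refine half_add hBs (disj_parts U) ?_
      rw [union_parts, ← card_pos, (mem_powersetCard.1 hU).2]
      omega
    have e2 : ev D A + ev D (fun σ τ => A τ σ) = 0 := by
      have h1 : ev D (dd B) = 0 := by
        rw [ev_dd]
        unfold ev
        refine sum_eq_zero fun U _ => ?_
        show B (evenPart U) (oddPart U) + B (oddPart U) (evenPart U) = 0
        rw [hBs (oddPart U)]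
        exact Pool.Agent.Helper133.BU.z2_add_self _
      have h2 : ev D A + ev D (fun σ τ => A τ σ) + ev D (dd B) = 0 := by
        rw [← ev_add, ← ev_add]
        unfold ev
        refine sum_eq_zero fun U hU => ?_
        exact c1 _ _ (disj_parts U) (by rw [card_parts]; exact (mem_powersetCard.1 hU).2)
      rw [h1, add_zero] at h2
      exact h2
    rw [sum_powersetCard_succ]
    have e3 : ∑ U ∈ powersetCard (D + 1) (univ : Finset (Fin n)),
        Z' (evenPart (mp U)) (oddPart (mp U)) = ev (D + 1) B := by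
      unfold ev
      refine sum_congr rfl fun U _ => ?_
      rw [evenPart_mp, oddPart_mp]
    rw [e3]
    rcases Nat.even_or_odd D with hD | hD
    · have e4 : ∑ W ∈ powersetCard D (univ : Finset (Fin n)),
          Z' (evenPart (insert (Fin.last n) (mp W))) (oddPart (insert (Fin.last n) (mp W))) =
          ev D A := by
        unfold ev
        refine sum_congr rfl fun W hW => ?_
        have hW' := (mem_powersetCard.1 hW).2
        rw [evenPart_last, oddPart_last, if_pos (by rw [hW']; exact hD),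
          if_pos (by rw [hW']; exact hD)]
      rw [e4, ← e1, e0]
    · have e4 : ∑ W ∈ powersetCard D (univ : Finset (Fin n)),
          Z' (evenPart (insert (Fin.last n) (mp W))) (oddPart (insert (Fin.last n) (mp W))) =
          ev D (fun σ τ => A τ σ) := by
        unfold ev
        refine sum_congr rfl fun W hW => ?_
        have hW' := (mem_powersetCard.1 hW).2
        have hne : ¬ Even W.card := by rw [hW']; exact Nat.not_even_iff_odd.2 hD
        rw [evenPart_last, oddPart_last, if_neg hne, if_neg hne, hA']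
      rw [e4, ← e1]
      have h1 : ∀ a b c x : ZMod 2, a + b = x → b + c = 0 → a + c = x := by decide
      exact h1 _ _ _ _ e0 e2
  · -- symmetric
    intro σ τ
    by_cases hc : Disjoint σ τ ∧ σ.card + τ.card = D
    · have hc' : Disjoint τ σ ∧ τ.card + σ.card = D := ⟨hc.1.symm, by rw [add_comm]; exact hc.2⟩
      rw [if_pos hc, if_pos hc']
      have h1 := c1 σ τ hc.1 hc.2
      rw [← dd_half hBs hc.1] at h1
      revert h1
      generalize A σ τ = a
      generalize A τ σ = b
      generalize dd (half B) σ τ = x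
      generalize dd (half B) τ σ = y
      revert a b x y
      decide
    · have hc' : ¬ (Disjoint τ σ ∧ τ.card + σ.card = D) := by
        rintro ⟨h1, h2⟩
        exact hc ⟨h1.symm, by rw [add_comm]; exact h2⟩
      rw [if_neg hc, if_neg hc']
  · -- support
    intro σ τ hne
    split_ifs at hne with hc
    · rcases (by by_contra hcon; push Not at hcon; exact hne (by rw [hcon.1, hcon.2, add_zero]) :
        dd (half B) σ τ ≠ 0 ∨ A σ τ ≠ 0) with h1 | h1
      · unfold dd at h1
        obtain ⟨v, _, hv⟩ := exists_ne_zero_of_sum_ne_zero h1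
        rcases (by by_contra hcon; push Not at hcon; exact hv (by rw [hcon.1, hcon.2, add_zero]) :
          half B (insert v σ) τ ≠ 0 ∨ half B σ (insert v τ) ≠ 0) with h2 | h2
        · have h4 : B (insert v σ) τ ≠ 0 := half_ne h2
          have h3 := hsupp _ _ h4
          rw [mem_cone, mem_cone] at h3
          exact ⟨hL.2 _ h3.1 _ (subset_insert _ _), h3.2⟩
        · have h4 : B σ (insert v τ) ≠ 0 := half_ne h2
          have h3 := hsupp _ _ h4
          rw [mem_cone, mem_cone] at h3
          exact ⟨h3.1, hL.2 _ h3.2 _ (subset_insert _ _)⟩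
      · have h3 := hsupp _ _ h1
        rw [mem_cone', mem_cone] at h3
        exact h3
    · exact absurd rfl hne
  · -- cycle
    intro ρ τ hd hc
    have h1 : ∑ v ∈ (ρ ∪ τ)ᶜ, ((if Disjoint (insert v ρ) τ ∧ (insert v ρ).card + τ.card = D then
        dd (half B) (insert v ρ) τ + A (insert v ρ) τ else 0) +
        (if Disjoint ρ (insert v τ) ∧ ρ.card + (insert v τ).card = D then
        dd (half B) ρ (insert v τ) + A ρ (insert v τ) else 0)) =
        dd (dd (half B)) ρ τ + dd A ρ τ := by
      unfold dd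
      rw [← sum_add_distrib]
      refine sum_congr rfl fun v hv => ?_
      rw [mem_compl, mem_union, not_or] at hv
      have d1 : Disjoint (insert v ρ) τ := by
        rw [disjoint_insert_left]
        exact ⟨hv.2, hd⟩
      have d2 : Disjoint ρ (insert v τ) := by
        rw [disjoint_insert_right]
        exact ⟨hv.1, hd⟩
      rw [if_pos ⟨d1, by rw [card_insert_of_notMem hv.1]; omega⟩,
        if_pos ⟨d2, by rw [card_insert_of_notMem hv.2]; omega⟩]
      ring
    rw [h1, dd_dd, c2 ρ τ hd hc, add_zero]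

theorem mem_cone_rs {L : Finset (Finset (Fin n))} {σ : Finset (Fin (n + 1))}
    (h : σ ∈ coneCx L) : rs σ ∈ L := by
  rw [coneCx, mem_filter] at h
  exact h.2

/-- **The cone**, cocycle condition. -/
theorem cone_clo {L : Finset (Finset (Fin n))} {D : ℕ}
    {c : Finset (Fin n) → Finset (Fin n) → ZMod 2} (hclo : Clo L D c) :
    Clo (coneCx L) (D + 1) (cn c) := by
  classical
  intro σ' hσ τ' hτ hd hc
  have hσ1 := mem_cone_rs hσ
  have hτ1 := mem_cone_rs hτ
  by_cases h1 : Fin.last n ∈ σ'
  · have h2 : Fin.last n ∉ τ' := disjoint_left.1 hd h1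
    obtain ⟨σ, hσ'⟩ : ∃ σ, σ' = insert (Fin.last n) (mp σ) := ⟨rs σ', (ins_rs h1).symm⟩
    obtain ⟨τ, hτ'⟩ : ∃ τ, τ' = mp τ := ⟨rs τ', (mp_rs h2).symm⟩
    subst hσ'
    subst hτ'
    rw [rs_ins] at hσ1
    rw [rs_mp] at hτ1
    rw [disjoint_insert_left, disjoint_map] at hd
    rw [card_insert_of_notMem (last_notMem_mp _), card_map, card_map] at hc
    rw [sum_insert (last_notMem_mp _), erase_insert (last_notMem_mp _), cn_mp, zero_add, sum_map,
      sum_map]
    rw [← hclo σ hσ1 τ hτ1 hd.2 (by omega)]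
    congr 1
    · refine sum_congr rfl fun v _ => ?_
      have : (insert (Fin.last n) (mp σ)).erase (Fin.castSuccEmb v) =
          insert (Fin.last n) (mp (σ.erase v)) := by
        rw [erase_insert_of_ne (by exact (Fin.castSucc_lt_last v).ne'), mp, mp, map_erase]
      rw [this, cn_ins]
    · refine sum_congr rfl fun v _ => ?_
      have : (mp τ).erase (Fin.castSuccEmb v) = mp (τ.erase v) := by
        rw [mp, mp, map_erase]
      rw [this, cn_ins]
  · have e1 : ∑ v ∈ σ', cn c (σ'.erase v) τ' = 0 := by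
      refine sum_eq_zero fun v _ => ?_
      unfold cn
      rw [if_neg (fun h => h1 (mem_of_mem_erase h))]
    have e2 : ∑ v ∈ τ', cn c σ' (τ'.erase v) = 0 := by
      refine sum_eq_zero fun v _ => ?_
      unfold cn
      rw [if_neg h1]
    rw [e1, e2, add_zero]

theorem stB : StB := fun _ _ _ _ hL h hclo => ⟨cone_tr hL h hclo, cone_clo hclo⟩

end Pool.Agent.H67.KR
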