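import Mathlib
import Pool.Agent.H37.KR.Defs

/-!
Counting the faces of the shifted complex outside the shifted boundary of the cyclic polytope.
-/

set_option autoImplicit false

namespace Pool.Agent.H67.KR

open Finset MvPolynomial Pool.Agent.W555.KS Pool.Agent.Y131.KS Pool.Agent.H37.KR

section A
open Pool.Agent.W689.KS

open Classical in
/-- allowed monomials are not in the generic initial ideal of the boundary of the cyclic polytope -/
theorem allowed_core (hg1 : G1') (hg2 : G2') (hg3 : StG3) (hcyc : Cyc')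
    (hsupp : StSupp) (hgc : StGCnt) (hgn : StGNum) (k : Type) [Field k] (hinf : Infinite k)
    (hk : CharZero k ∨ CharP k 2) (n d : ℕ) (hd : 1 ≤ d) (hdn : d < n) (m : Fin n →₀ ℕ)
    (hidx : ∀ i ∈ m.support, (i : ℕ) + m.degree ≤ n) (hal : Allowed n d m) :
    m ∉ ginSet (srI k (cyc n d)) := by
  intro hmg
  obtain ⟨hcx, hce⟩ := hcyc n d hd hdn
  obtain ⟨F1, hF1, hF1g⟩ := hmg
  -- the determinant polynomial
  set D : MvPolynomial (Fin n × Fin n) k := (Matrix.mvPolynomialX (Fin n) (Fin n) k).det with hD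
  have hD0 : D ≠ 0 := Matrix.det_mvPolynomialX_ne_zero (Fin n) k
  have hDg : ∀ g : Fin n × Fin n → k, eval g D = (Matrix.of (fun i j => g (i, j))).det := by
    intro g
    rw [hD, RingHom.map_det]
    congr 1
    ext i j
    simp [Matrix.mvPolynomialX]
  rcases Nat.eq_zero_or_pos m.degree with h0 | hpos
  · -- degree zero
    have hm0 : m = 0 := by
      rwa [Finsupp.degree_eq_zero_iff] at h0
    subst hm0
    obtain ⟨g, hg⟩ := exists_eval_ne (F1 * D) (mul_ne_zero hF1 hD0)
    rw [map_mul] at hg
    have hg1' := left_ne_zero_of_mul hg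
    have hg2' := right_ne_zero_of_mul hg
    rw [hDg] at hg2'
    obtain ⟨f, hf, hf0, hfs⟩ := hF1g g hg2' hg1'
    have hsup : ∀ m' : Fin n →₀ ℕ, m' ≠ 0 → coeff m' f = 0 := by
      intro m' hm'
      by_contra hc
      have := hfs m' (mem_support_iff.2 hc) hm'
      rcases this with h | ⟨h, _⟩
      · simp at h
      · apply hm'
        rw [map_zero] at h
        rwa [Finsupp.degree_eq_zero_iff] at h
    have hfC : f = C (coeff 0 f) := by
      ext m'
      rw [coeff_C]
      split_ifs with h
      · rw [h]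
      · exact hsup m' (fun e => h e.symm)
    have hmem : (C (coeff 0 f) : MvPolynomial (Fin n) k) ∈ srI k (cyc n d) := by
      have h1 : subst g f ∈ srI k (cyc n d) := hf
      rw [hfC] at h1
      unfold Pool.Agent.W555.KS.subst at h1
      rw [aeval_C] at h1
      simpa using h1
    exact srI_ne_top (cyc n d) hcx.1 _ hf0 hmem
  · -- positive degree
    obtain ⟨j, hj⟩ : ∃ j, m.degree = j + 1 := ⟨m.degree - 1, by omega⟩
    have hsum : ∀ s : Finset (Fin n), ∑ i ∈ s, m i ≤ m.degree := by
      intro s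
      rw [Finsupp.degree_eq_sum]
      exact sum_le_sum_of_subset (subset_univ s)
    have hjd : j < d := by
      by_contra hjd
      have hall : ∑ i ∈ (univ : Finset (Fin n)).filter (fun i : Fin n => (i : ℕ) + d < n), m i =
          m.degree := by
        rw [Finsupp.degree_eq_sum]
        apply sum_subset (filter_subset _ _)
        intro i _ hi
        by_contra hmi
        apply hi
        rw [mem_filter]
        refine ⟨mem_univ _, ?_⟩
        have := hidx i (Finsupp.mem_support_iff.2 hmi)
        omega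
      have h2 := hal
      unfold Allowed at h2
      rw [hall] at h2
      have h3 := hsum ((univ : Finset (Fin n)).filter (fun i : Fin n => (i : ℕ) + d + 1 = n))
      omega
    -- polynomials for the non-allowed monomials
    have hfin : {m' : Fin n →₀ ℕ | m'.degree = j + 1}.Finite := finite_degree n (j + 1)
    have hna : ∀ m' : Fin n →₀ ℕ, ¬ Allowed n d m' → ∃ F : MvPolynomial (Fin n × Fin n) k, F ≠ 0 ∧
        ∀ g : Fin n × Fin n → k, (Matrix.of (fun i j => g (i, j))).det ≠ 0 → eval g F ≠ 0 →
          m' ∈ inSet (coordI g (srI k (cyc n d))) :=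
      fun m' h => hg1 k hk n d (cyc n d) hdn hcx hce m' h
    choose! G hG0 hGg using hna
    set F2 : MvPolynomial (Fin n × Fin n) k :=
      ∏ m' ∈ hfin.toFinset.filter (fun m' => ¬ Allowed n d m'), G m' with hF2
    have hF20 : F2 ≠ 0 := by
      rw [hF2, prod_ne_zero_iff]
      intro m' hm'
      exact hG0 m' (mem_filter.1 hm').2
    obtain ⟨F3, hF30, hF3g⟩ := hg2 k n (j + 1) (cyc n d) hcx
    obtain ⟨g, hg⟩ := exists_eval_ne (F1 * F2 * F3 * D)
      (mul_ne_zero (mul_ne_zero (mul_ne_zero hF1 hF20) hF30) hD0)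
    rw [map_mul, map_mul, map_mul] at hg
    have hgD := right_ne_zero_of_mul hg
    have hg3' := right_ne_zero_of_mul (left_ne_zero_of_mul hg)
    have hg2' := right_ne_zero_of_mul (left_ne_zero_of_mul (left_ne_zero_of_mul hg))
    have hg1' := left_ne_zero_of_mul (left_ne_zero_of_mul (left_ne_zero_of_mul hg))
    rw [hDg] at hgD
    have hmin := hF1g g hgD hg1'
    have hc1 := hF3g g hgD hg3'
    have hnain : ∀ m' : Fin n →₀ ℕ, m'.degree = j + 1 → ¬ Allowed n d m' →
        m' ∈ inSet (coordI g (srI k (cyc n d))) := by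
      intro m' hm' hna'
      apply hGg m' hna' g hgD
      rw [hF2, map_prod, prod_ne_zero_iff] at hg2'
      exact hg2' m' (mem_filter.2 ⟨by simpa using hm', hna'⟩)
    have hAfin : {m' : Fin n →₀ ℕ | m'.degree = j + 1 ∧
        (∀ i ∈ m'.support, (i : ℕ) + (j + 1) ≤ n) ∧ Allowed n d m'}.Finite :=
      hfin.subset (fun m' hm' => hm'.1)
    have hlt : {m' : Fin n →₀ ℕ | m'.degree = j + 1 ∧ (∀ i ∈ m'.support, (i : ℕ) + (j + 1) ≤ n) ∧
        m' ∉ inSet (coordI g (srI k (cyc n d)))}.ncard <
        {m' : Fin n →₀ ℕ | m'.degree = j + 1 ∧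
        (∀ i ∈ m'.support, (i : ℕ) + (j + 1) ≤ n) ∧ Allowed n d m'}.ncard := by
      apply Set.ncard_lt_ncard _ hAfin
      refine ⟨?_, ?_⟩
      · rintro m' ⟨h1, h2, h3⟩
        refine ⟨h1, h2, ?_⟩
        by_contra h4
        exact h3 (hnain m' h1 h4)
      · intro hsub
        have hmem : m ∈ {m' : Fin n →₀ ℕ | m'.degree = j + 1 ∧
            (∀ i ∈ m'.support, (i : ℕ) + (j + 1) ≤ n) ∧ Allowed n d m'} := by
          refine ⟨hj, ?_, hal⟩
          intro i hi
          have := hidx i hi
          omega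
        exact (hsub hmem).2.2 hmin
    have hc3 := hg3 n d j hjd hdn
    have hc4 := hgn n d j hjd hdn
    have hc5 := card_faces hsupp hgc n d (j + 1) hjd hdn
    have hc6 : ((cyc n d).filter (fun σ => σ.card = j + 1)).card ≤
      {m' : Fin n →₀ ℕ | m'.degree = j + 1 ∧ (∀ i ∈ m'.support, (i : ℕ) + (j + 1) ≤ n) ∧
        m' ∉ inSet (coordI g (srI k (cyc n d)))}.ncard := by
      convert hc1
    omega

theorem g1' : G1' :=
  g1 (spec span2 (t2 (t1e' halg') (t1o' halg') W646.KS.ind (t2c (t1e' halg') W646.KS.ind)))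

theorem allowed (k : Type) [Field k] (hinf : Infinite k)
    (hk : CharZero k ∨ CharP k 2) (n d : ℕ) (hd : 1 ≤ d) (hdn : d < n) (m : Fin n →₀ ℕ)
    (hidx : ∀ i ∈ m.support, (i : ℕ) + m.degree ≤ n) (hal : Allowed n d m) :
    m ∉ ginSet (srI k (cyc n d)) :=
  allowed_core g1' g2' W386.KS.g3 cyc' W386.KS.supp W410.KalSar.gcnt W682.KS.gnum
    k hinf hk n d hd hdn m hidx hal

end A

theorem idx_len {n : ℕ} (m : Fin n →₀ ℕ) : (idxList m).length = m.degree := by
  unfold idxList
  rw [Multiset.length_sort, Multiset.card_map, Finsupp.card_toMultiset]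
  rfl

theorem idx_sorted {n : ℕ} (m : Fin n →₀ ℕ) : (idxList m).Pairwise (· ≤ ·) := by
  unfold idxList
  exact Multiset.pairwise_sort _ _

theorem phi_card {n : ℕ} (m : Fin n →₀ ℕ) : (phi m).card = m.degree := by
  unfold phi
  rw [card_image_of_injective, card_univ, Fintype.card_fin, idx_len]
  intro a b hab
  simp only at hab
  by_contra hne
  rcases lt_or_gt_of_ne hne with h | h
  · have h1 := (List.pairwise_iff_get.1 (idx_sorted m)) a b h
    have h2 : (a : ℕ) < b := h
    omega
  · have h1 := (List.pairwise_iff_get.1 (idx_sorted m)) b a h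
    have h2 : (b : ℕ) < a := h
    omega

theorem phi_bound {n : ℕ} (m : Fin n →₀ ℕ) (N : ℕ) (hm : ∀ x ∈ phi m, x + 1 ≤ N + m.degree) :
    ∀ i ∈ m.support, (i : ℕ) ≤ N := by
  intro i hi
  have hlen := idx_len m
  have hmem : (i : ℕ) ∈ idxList m := by
    unfold idxList
    rw [Multiset.mem_sort, Multiset.mem_map]
    exact ⟨i, by rwa [Finsupp.mem_toMultiset], rfl⟩
  have hsort := idx_sorted m
  obtain ⟨p, hp⟩ := List.get_of_mem hmem
  have hpos : 0 < (idxList m).length := lt_of_le_of_lt (Nat.zero_le _) p.2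
  set last : Fin (idxList m).length := ⟨(idxList m).length - 1, by omega⟩ with hlast
  have h1 : (idxList m).get p ≤ (idxList m).get last := by
    rcases lt_or_eq_of_le (show p ≤ last from by
      rw [Fin.le_iff_val_le_val]; have := p.2; simp [hlast]; omega) with h | h
    · exact (List.pairwise_iff_get.1 hsort) p last h
    · rw [h]
  have h2 : (idxList m).get last + (last : ℕ) ∈ phi m := by
    unfold phi
    exact Finset.mem_image.2 ⟨last, Finset.mem_univ _, rfl⟩
  have h3 := hm _ h2
  have h4 : (last : ℕ) = (idxList m).length - 1 := rfl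
  omega

/-- the counting theorem -/
theorem count (hE1 : StE1) (hE2 : StE2) (k : Type) [Field k] (hinf : Infinite k)
    (hk : CharZero k ∨ CharP k 2) (n d r : ℕ) (hd : 1 ≤ d) (hdn : d < n) (hr : d < 2 * r)
    (L : Finset (Finset (Fin n))) (J : Finset (Fin n →₀ ℕ)) (hJ : ∀ m ∈ J, m.degree = r)
    (F : MvPolynomial (Fin (d + 1) × Fin n) ℤ)
    (hF0 : MvPolynomial.map (Int.castRingHom (ZMod 2)) F ≠ 0)
    (hF : ∀ (c : Fin (d + 1) × Fin n → k), aeval c F ≠ 0 →
      ∀ p : MvPolynomial (Fin n) k, p.IsHomogeneous r →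
        p ∈ srI k L ⊔
          Ideal.span (Set.range (fun i : Fin d => lf (fun v => c (i.castSucc, v)))) ⊔
          Ideal.span {lf (fun v => c (Fin.last d, v)) ^ (2 * r - d)} ⊔
          Ideal.span ((fun m => monomial m (1 : k)) '' (J : Set (Fin n →₀ ℕ)))) :
    {S : Finset ℕ | S ∈ shift k L ∧ S ∉ shift k (cyc n d) ∧ S.card = r ∧
      ∀ x ∈ S, x + d + 1 < n + r}.ncard ≤ J.card := by
  classical
  let row : Fin (d + 1) → Fin n := fun i => ⟨n - 1 - i, by omega⟩
  have hrow : Function.Injective row := by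
    intro i j hij
    have := congrArg Fin.val hij
    simp only [row] at this
    apply Fin.ext
    omega
  let ρ : Fin (d + 1) × Fin n → Fin n × Fin n := fun p => (row p.1, p.2)
  have hρ : Function.Injective ρ := by
    rintro ⟨i, v⟩ ⟨j, u⟩ h
    have h1 : row i = row j := congrArg Prod.fst h
    have h2 : v = u := congrArg Prod.snd h
    rw [hrow h1, h2]
  set F1 : MvPolynomial (Fin n × Fin n) k := rename ρ (map (Int.castRingHom k) F) with hF1
  have hF10 : F1 ≠ 0 := by
    intro h
    exact map_ne hk hF0 (rename_injective ρ hρ (by rw [← hF1, h, map_zero]))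
  obtain ⟨F2, hF20, hF2⟩ := hE1 k n r L
  set D : MvPolynomial (Fin n × Fin n) k := (Matrix.mvPolynomialX (Fin n) (Fin n) k).det with hD
  have hD0 : D ≠ 0 := Matrix.det_mvPolynomialX_ne_zero (Fin n) k
  have hDg : ∀ g : Fin n × Fin n → k, eval g D = (Matrix.of (fun i j => g (i, j))).det := by
    intro g
    rw [hD, RingHom.map_det]
    congr 1
    ext i j
    simp [Matrix.mvPolynomialX]
  obtain ⟨g, hg⟩ := W689.KS.exists_eval_ne (F1 * F2 * D) (mul_ne_zero (mul_ne_zero hF10 hF20) hD0)
  rw [map_mul, map_mul] at hg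
  have hgD := right_ne_zero_of_mul hg
  have hg2 := right_ne_zero_of_mul (left_ne_zero_of_mul hg)
  have hg1 := left_ne_zero_of_mul (left_ne_zero_of_mul hg)
  rw [hDg] at hgD
  have hF3 := hF (fun p => g (ρ p)) (by
    rw [hF1, eval_rename, eval_map] at hg1
    rw [aeval_def]
    exact hg1)
  have hcount := hE2 k n d r hdn L J g hJ hr hgD (by
    intro p hp
    have h1 := hF3 p hp
    have e1 : (fun v => g (ρ (Fin.last d, v))) = fun v => g (⟨n - 1 - d, by omega⟩, v) := by
      funext v
      simp only [ρ, row, Fin.val_last]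
    rw [e1] at h1
    exact h1)
  refine le_trans ?_ hcount
  set T : Set (Fin n →₀ ℕ) := {m : Fin n →₀ ℕ | m.degree = r ∧
    (∀ i : Fin n, n ≤ (i : ℕ) + d → m i = 0) ∧
    m ⟨n - 1 - d, by omega⟩ < 2 * r - d ∧ m ∉ inSet (coordI g (srI k L))} with hT
  have hTfin : T.Finite := (W689.KS.finite_degree n r).subset (fun m hm => hm.1)
  have hsub : {S : Finset ℕ | S ∈ shift k L ∧ S ∉ shift k (cyc n d) ∧ S.card = r ∧
      ∀ x ∈ S, x + d + 1 < n + r} ⊆ phi '' T := by
    rintro S ⟨⟨m, hm1, hm2, rfl⟩, hnc, hc, hx⟩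
    rw [phi_card] at hc
    refine ⟨m, ?_, rfl⟩
    have hna : ¬ Allowed n d m := by
      intro hal
      exact hnc ⟨m, allowed k hinf hk n d hd hdn m (W398.KS.phi_lt n m hm2) hal, hm2, rfl⟩
    have hsupp : ∀ i ∈ m.support, (i : ℕ) ≤ n - d - 1 := by
      apply phi_bound
      intro x hxx
      have := hx x hxx
      omega
    have hm0 : ∀ i : Fin n, n ≤ (i : ℕ) + d → m i = 0 := by
      intro i hi
      by_contra h
      have := hsupp i (Finsupp.mem_support_iff.2 h)
      omega
    refine ⟨hc, hm0, ?_, ?_⟩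
    · unfold Allowed at hna
      rw [not_le] at hna
      have h1 : (univ : Finset (Fin n)).filter (fun i : Fin n => (i : ℕ) + d + 1 = n) =
          {⟨n - 1 - d, by omega⟩} := by
        ext i
        simp only [Finset.mem_filter, Finset.mem_univ, true_and, Finset.mem_singleton]
        constructor
        · intro h
          apply Fin.ext
          simp only
          omega
        · rintro rfl
          simp only
          omega
      have h2 : ∑ i ∈ (univ : Finset (Fin n)).filter (fun i : Fin n => (i : ℕ) + d < n), m i =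
          r := by
        rw [← hc, Finsupp.degree_eq_sum]
        apply sum_subset (filter_subset _ _)
        intro i _ hi
        apply hm0
        by_contra h
        apply hi
        rw [mem_filter]
        exact ⟨mem_univ _, by omega⟩
      rw [h1, Finset.sum_singleton, h2] at hna
      omega
    · rw [hF2 g hgD hg2 m hc]
      exact hm1
  calc _ ≤ (phi '' T).ncard := Set.ncard_le_ncard hsub (hTfin.image _)
    _ ≤ T.ncard := Set.ncard_image_le hTfin

end Pool.Agent.H67.KR
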