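import Mathlib
import Pool.Agent.H37.KR.Fin
import Pool.Agent.H67.KR.Count

/-!
The final statement `StFin`: the count and the initial parts.
-/

set_option autoImplicit false

namespace Pool.Agent.H67.KR

open Finset MvPolynomial Pool.Agent.W555.KS Pool.Agent.Y131.KS Pool.Agent.H37.KR

/-- first statement of `StFin` -/
theorem fin1 (hT : StT2J) (hD : StD) (hE1 : StE1) (hE2 : StE2) (k : Type) [Field k]
    (hinf : Infinite k) (hk : CharZero k ∨ CharP k 2) (n d m : ℕ) (L : Finset (Finset (Fin n)))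
    (b : Fin m → ℕ) (β α : Fin m → Finset (Fin n) → ZMod 2) (hd : 1 ≤ d) (hdn : d < n)
    (hL : IsCx L) (hyp : Hyp L d b β α) (r : ℕ) (hr : d < 2 * r) :
    {S : Finset ℕ | S ∈ shift k L ∧ S ∉ shift k (cyc n d) ∧ S.card = r ∧
      ∀ x ∈ S, x + d + 1 < n + r}.ncard ≤ Nat.choose d r * nf d b r := by
  obtain ⟨J, hJ, hJc, hJs⟩ := hT n d m L b β α hL hyp r hr
  obtain ⟨F, hF0, hF⟩ := hD n d r L J hJ hr hJs
  exact (count hE1 hE2 k hinf hk n d r hd hdn hr L J hJ F hF0 (fun c hc => hF k c hc)).trans hJc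

/-- monomials dividing a monomial outside the generic initial ideal are outside -/
theorem gin_mul {n : ℕ} {k : Type} [Field k] (I : Ideal (MvPolynomial (Fin n) k))
    (m m' : Fin n →₀ ℕ) (h : m ∈ ginSet I) : m' + m ∈ ginSet I := by
  obtain ⟨F, hF0, hF⟩ := h
  refine ⟨F, hF0, fun g hg hgF => ?_⟩
  obtain ⟨f, hf, hf0, hfs⟩ := hF g hg hgF
  refine ⟨monomial m' 1 * f, Ideal.mul_mem_left _ _ hf, ?_, ?_⟩
  · rw [coeff_monomial_mul, one_mul]
    exact hf0
  · intro μ hμ hne
    rw [mem_support_iff, coeff_monomial_mul'] at hμ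
    split_ifs at hμ with hle
    · rw [one_mul] at hμ
      set μ' := μ - m' with hμ'
      have hμμ : m' + μ' = μ := by
        rw [hμ']
        exact add_tsub_cancel_of_le hle
      have hne' : μ' ≠ m := by
        intro h
        apply hne
        rw [← hμμ, h]
      have h1 := hfs μ' (mem_support_iff.2 hμ) hne'
      rw [← hμμ]
      rcases h1 with h1 | ⟨h1, j, h2, h3⟩
      · left
        rw [map_add, map_add]
        omega
      · right
        refine ⟨by rw [map_add, map_add, h1], j, ?_, ?_⟩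
        · rw [Finsupp.add_apply, Finsupp.add_apply]
          omega
        · intro i hi
          rw [Finsupp.add_apply, Finsupp.add_apply, h3 i hi]
    · exact absurd rfl hμ

theorem idx_coe {n : ℕ} (m : Fin n →₀ ℕ) :
    ((idxList m : List ℕ) : Multiset ℕ) =
      Multiset.map (fun i : Fin n => (i : ℕ)) (Finsupp.toMultiset m) := by
  unfold idxList
  exact Multiset.sort_eq _ _

theorem mem_idx {n : ℕ} (m : Fin n →₀ ℕ) (x : ℕ) :
    x ∈ idxList m ↔ ∃ i ∈ m.support, (i : ℕ) = x := by
  unfold idxList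
  rw [Multiset.mem_sort, Multiset.mem_map]
  constructor
  · rintro ⟨i, hi, rfl⟩
    exact ⟨i, by rwa [Finsupp.mem_toMultiset] at hi, rfl⟩
  · rintro ⟨i, hi, rfl⟩
    exact ⟨i, by rwa [Finsupp.mem_toMultiset], rfl⟩

theorem idx_append {n : ℕ} (m' m'' : Fin n →₀ ℕ)
    (h : ∀ i ∈ m'.support, ∀ j ∈ m''.support, i ≤ j) :
    idxList (m' + m'') = idxList m' ++ idxList m'' := by
  have hs : (idxList m' ++ idxList m'').Pairwise (· ≤ ·) := by
    rw [List.pairwise_append]
    refine ⟨idx_sorted _, idx_sorted _, ?_⟩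
    intro a ha b hb
    obtain ⟨i, hi, rfl⟩ := (mem_idx m' a).1 ha
    obtain ⟨j, hj, rfl⟩ := (mem_idx m'' b).1 hb
    exact h i hi j hj
  refine List.Perm.eq_of_pairwise (le := (· ≤ ·)) (fun a b _ _ => le_antisymm) (idx_sorted _) hs ?_
  rw [← Multiset.coe_eq_coe, ← Multiset.coe_add, idx_coe, idx_coe, idx_coe, map_add,
    Multiset.map_add]

theorem phi_sub {n : ℕ} (m' m'' : Fin n →₀ ℕ)
    (h : ∀ i ∈ m'.support, ∀ j ∈ m''.support, i ≤ j) : phi m' ⊆ phi (m' + m'') := by
  intro x hx
  unfold phi at hx ⊢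
  rw [mem_image] at hx ⊢
  obtain ⟨j, -, rfl⟩ := hx
  have hl := idx_append m' m'' h
  have hlen : (j : ℕ) < (idxList (m' + m'')).length := by
    rw [hl, List.length_append]
    have := j.2
    omega
  refine ⟨⟨j, hlen⟩, mem_univ _, ?_⟩
  simp only [List.get_eq_getElem]
  congr 1
  simp only [hl]
  rw [List.getElem_append_left]

theorem phi_inj {n : ℕ} (m1 m2 : Fin n →₀ ℕ) (h : phi m1 = phi m2) : m1 = m2 := by
  have hlen : (idxList m1).length = (idxList m2).length := by
    rw [idx_len, idx_len, ← phi_card, ← phi_card, h]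
  have hmono : ∀ m : Fin n →₀ ℕ, StrictMono
      (fun j : Fin (idxList m).length => (idxList m).get j + (j : ℕ)) := by
    intro m a b hab
    have h1 := (List.pairwise_iff_get.1 (idx_sorted m)) a b hab
    have h2 : (a : ℕ) < b := hab
    simp only
    omega
  have hcard : ∀ m : Fin n →₀ ℕ, (phi m).card = (idxList m).length := by
    intro m
    rw [phi_card, idx_len]
  have hmem : ∀ (m : Fin n →₀ ℕ) (j : Fin (idxList m).length),
      (idxList m).get j + (j : ℕ) ∈ phi m := by
    intro m j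
    unfold phi
    exact mem_image.2 ⟨j, mem_univ _, rfl⟩
  have e1 := Finset.orderEmbOfFin_unique (hcard m1) (hmem m1) (hmono m1)
  have e2 := Finset.orderEmbOfFin_unique (s := phi m1) (k := (idxList m1).length) (hcard m1)
    (f := fun j : Fin (idxList m1).length => (idxList m2).get (Fin.cast hlen j) + (j : ℕ))
    (fun j => by
      rw [h]
      exact hmem m2 (Fin.cast hlen j)) (by
      intro a b hab
      exact hmono m2 (show Fin.cast hlen a < Fin.cast hlen b from hab))
  have hl : idxList m1 = idxList m2 := by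
    refine List.ext_get hlen ?_
    intro j h1 h2
    have h3 := congrFun (e1.trans e2.symm) ⟨j, h1⟩
    simp only at h3
    have h4 : Fin.cast hlen ⟨j, h1⟩ = ⟨j, h2⟩ := rfl
    rw [h4] at h3
    omega
  have h5 : Multiset.map (fun i : Fin n => (i : ℕ)) (Finsupp.toMultiset m1) =
      Multiset.map (fun i : Fin n => (i : ℕ)) (Finsupp.toMultiset m2) := by
    rw [← idx_coe, ← idx_coe, hl]
  have h6 := Multiset.map_injective Fin.val_injective h5
  ext i
  rw [← Finsupp.count_toMultiset m1 i, ← Finsupp.count_toMultiset m2 i, h6]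

/-- second statement of `StFin` -/
theorem fin2 (k : Type) [Field k] (hinf : Infinite k) (hk : CharZero k ∨ CharP k 2) (n d : ℕ)
    (L : Finset (Finset (Fin n))) (hd : 1 ≤ d) (hdn : d < n) (S : Finset ℕ)
    (hS : S ∈ shift k L) (hSc : S ∉ shift k (cyc n d)) :
    ∃ r, d < 2 * r ∧ ∃ S' ⊆ S, S'.card = r ∧
      S' ∈ shift k L ∧ S' ∉ shift k (cyc n d) ∧ ∀ x ∈ S', x + d + 1 < n + r := by
  classical
  obtain ⟨m, hm1, hm2, rfl⟩ := hS
  have hna : ¬ Allowed n d m := by
    intro hal
    exact hSc ⟨m, allowed k hinf hk n d hd hdn m (W398.KS.phi_lt n m hm2) hal, hm2, rfl⟩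
  set m' : Fin n →₀ ℕ := m.filter (fun i => (i : ℕ) + d < n) with hm'
  set m'' : Fin n →₀ ℕ := m.filter (fun i => ¬ (i : ℕ) + d < n) with hm''
  have hmm : m' + m'' = m := Finsupp.filter_add_filter_not m _
  have hs' : ∀ i ∈ m'.support, (i : ℕ) + d < n := by
    intro i hi
    rw [hm', Finsupp.support_filter, mem_filter] at hi
    exact hi.2
  have hs'' : ∀ i ∈ m''.support, ¬ (i : ℕ) + d < n := by
    intro i hi
    rw [hm'', Finsupp.support_filter, mem_filter] at hi
    exact hi.2
  have hsub : phi m' ⊆ phi m := by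
    rw [← hmm]
    refine phi_sub m' m'' fun i hi j hj => ?_
    have h1 := hs' i hi
    have h2 := hs'' j hj
    rw [Fin.le_iff_val_le_val]
    omega
  have hsum1 : ∑ i ∈ (univ : Finset (Fin n)).filter (fun i : Fin n => (i : ℕ) + d < n), m i =
      m'.degree := by
    rw [Finsupp.degree_eq_sum, Finset.sum_filter]
    refine Finset.sum_congr rfl fun i _ => ?_
    rw [hm', Finsupp.filter_apply]
  have hna' : ¬ Allowed n d m' := by
    intro hal
    apply hna
    unfold Allowed at hal ⊢
    have h1 : ∀ i ∈ (univ : Finset (Fin n)).filter (fun i : Fin n => (i : ℕ) + d < n),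
        m' i = m i := by
      intro i hi
      rw [hm', Finsupp.filter_apply, if_pos (mem_filter.1 hi).2]
    have h2 : ∀ i ∈ (univ : Finset (Fin n)).filter (fun i : Fin n => (i : ℕ) + d + 1 = n),
        m' i = m i := by
      intro i hi
      have := (mem_filter.1 hi).2
      rw [hm', Finsupp.filter_apply, if_pos (by omega)]
    rw [sum_congr rfl h1, sum_congr rfl h2] at hal
    exact hal
  have hr : d < 2 * m'.degree := by
    have h3 := hna
    unfold Allowed at h3
    rw [not_le, hsum1] at h3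
    omega
  refine ⟨m'.degree, hr, phi m', hsub, phi_card m', ⟨m', ?_, fun x hx => hm2 x (hsub hx), rfl⟩,
    ?_, ?_⟩
  · intro hg
    apply hm1
    rw [← hmm, add_comm]
    exact gin_mul _ _ _ hg
  · rintro ⟨m2, h1, h2, h3⟩
    have h4 := phi_inj m' m2 h3
    rw [← h4] at h1
    obtain ⟨hcx, hce⟩ := cyc' n d hd hdn
    exact h1 (g1' k hk n d (cyc n d) hdn hcx hce m' hna')
  · intro x hx
    unfold phi at hx
    rw [mem_image] at hx
    obtain ⟨j, -, rfl⟩ := hx
    have h1 := (mem_idx m' _).1 (List.get_mem (idxList m') j)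
    obtain ⟨i, hi, hi'⟩ := h1
    have h2 := hs' i hi
    have h3 : (j : ℕ) < m'.degree := lt_of_lt_of_eq j.2 (idx_len m')
    rw [← hi']
    omega

theorem stFin : StFin := by
  intro hT hD hE1 hE2 k _ hinf hk n d m L b β α hd hdn hL hyp
  exact ⟨fun r hr => fin1 hT hD hE1 hE2 k hinf hk n d m L b β α hd hdn hL hyp r hr,
    fun S hS hSc => fin2 k hinf hk n d L hd hdn S hS hSc⟩

end Pool.Agent.H67.KR
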