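import Mathlib
import Pool.Agent.H67.KS.Form
import Pool.Agent.H67.KR.Fin1
import Pool.Agent.H86.KR.PartD
import Pool.Agent.H36.KR.E1
import Pool.Agent.H91.KR.E2

/-!
The middle dimension with an arbitrary symmetric form: the count, and complete skeleta.
-/

set_option autoImplicit false

namespace Pool.Agent.H67.KR

open Finset MvPolynomial Pool.Agent.W555.KS Pool.Agent.Y131.KS Pool.Agent.H37.KR

/-- the count in the middle dimension -/
theorem mid (k : Type) [Field k] (hinf : Infinite k) (hk : CharZero k ∨ CharP k 2)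
    (n d q b : ℕ) (hq2 : 2 ≤ q) (hq : d + 1 = 2 * q) (hdn : d < n)
    (L : Finset (Finset (Fin n))) (Ω : Fin b → Fin b → ZMod 2)
    (ψ : Fin b → Finset (Fin n) → ZMod 2) (h : H67.KS.IsForm L q Ω ψ) :
    {S : Finset ℕ | S ∈ shift k L ∧ S ∉ shift k (cyc n d) ∧ S.card = q ∧
      ∀ x ∈ S, x + d + 1 < n + q}.ncard ≤ d.choose q * b := by
  obtain ⟨J, hJc, hJ, hJs⟩ := H67.KS.fewF hq2 hq L h
  obtain ⟨F, hF0, hF⟩ := H86.KR.stD n d q L J hJ (by omega) hJs
  exact (count H36.KR.stE1 H91.KR.stE2 k hinf hk n d q (by omega) hdn (by omega) L J hJ F hF0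
    (fun c hc => hF k c hc)).trans hJc

theorem subst_inv {n : ℕ} {k : Type} [Field k] (g h : Fin n × Fin n → k)
    (hgh : ∀ i l, ∑ j, h (i, j) * g (j, l) = if i = l then 1 else 0)
    (p : MvPolynomial (Fin n) k) : W555.KS.subst g (W555.KS.subst h p) = p := by
  have h1 : (W555.KS.subst g).comp (W555.KS.subst h) = AlgHom.id k _ := by
    apply MvPolynomial.algHom_ext
    intro i
    rw [AlgHom.comp_apply, W460.KS.subst_X]
    unfold lf
    rw [map_sum]
    have h2 : ∀ j, W555.KS.subst g (C (h (i, j)) * X j) = ∑ l, C (h (i, j) * g (j, l)) * X l := by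
      intro j
      rw [map_mul, W460.KS.subst_X]
      have : W555.KS.subst g (C (h (i, j))) = C (h (i, j)) := by
        unfold W555.KS.subst
        rw [aeval_C]
        rfl
      rw [this]
      unfold lf
      rw [Finset.mul_sum]
      refine Finset.sum_congr rfl fun l _ => ?_
      rw [C_mul, mul_assoc]
    simp only [h2]
    rw [Finset.sum_comm]
    have h3 : ∀ l, ∑ j, C (h (i, j) * g (j, l)) * (X l : MvPolynomial (Fin n) k) =
        C (if i = l then 1 else 0) * X l := by
      intro l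
      rw [← Finset.sum_mul, ← map_sum, hgh]
    simp only [h3]
    simp
  have := congrArg (fun φ => φ p) h1
  simpa using this

theorem srI_deg {n : ℕ} {k : Type} [Field k] {L : Finset (Finset (Fin n))} {q : ℕ}
    (hL : ∀ σ : Finset (Fin n), σ.card ≤ q → σ ∈ L) {p : MvPolynomial (Fin n) k}
    (hp : p ∈ srI k L) (μ : Fin n →₀ ℕ) (hμ : μ ∈ p.support) : q < μ.degree := by
  classical
  unfold srI at hp
  have e : {p : MvPolynomial (Fin n) k | ∃ σ : Finset (Fin n), σ ∉ L ∧ p = ∏ v ∈ σ, X v} =
      (fun s => monomial s (1 : k)) '' {s | ∃ σ : Finset (Fin n), σ ∉ L ∧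
        s = ∑ v ∈ σ, Finsupp.single v 1} := by
    ext p
    constructor
    · rintro ⟨σ, hσ, rfl⟩
      refine ⟨_, ⟨σ, hσ, rfl⟩, ?_⟩
      simp only
      rw [monomial_sum_one]
      rfl
    · rintro ⟨_, ⟨σ, hσ, rfl⟩, rfl⟩
      refine ⟨σ, hσ, ?_⟩
      simp only
      rw [monomial_sum_one]
      rfl
  rw [e, mem_ideal_span_monomial_image] at hp
  obtain ⟨s, ⟨σ, hσ, rfl⟩, hle⟩ := hp μ hμ
  have h1 : q < σ.card := by
    by_contra h
    exact hσ (hL σ (by omega))
  have h2 : (∑ v ∈ σ, (Finsupp.single v 1 : Fin n →₀ ℕ)).degree = σ.card := by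
    rw [map_sum]
    simp
  have h3 : (∑ v ∈ σ, (Finsupp.single v 1 : Fin n →₀ ℕ)).degree ≤ μ.degree := by
    obtain ⟨c, hc⟩ := le_iff_exists_add.1 hle
    rw [hc, map_add]
    omega
  omega

/-- no monomial of degree `q` is in the generic initial ideal if all `q`-sets are faces -/
theorem not_gin_low {n : ℕ} {k : Type} [Field k] (hinf : Infinite k)
    {L : Finset (Finset (Fin n))} {q : ℕ}
    (hL : ∀ σ : Finset (Fin n), σ.card ≤ q → σ ∈ L) (m : Fin n →₀ ℕ) (hm : m.degree = q) :
    m ∉ ginSet (srI k L) := by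
  classical
  rintro ⟨F, hF0, hF⟩
  set D : MvPolynomial (Fin n × Fin n) k := (Matrix.mvPolynomialX (Fin n) (Fin n) k).det with hD
  have hD0 : D ≠ 0 := Matrix.det_mvPolynomialX_ne_zero (Fin n) k
  have hDg : ∀ g : Fin n × Fin n → k, eval g D = (Matrix.of (fun i j => g (i, j))).det := by
    intro g
    rw [hD, RingHom.map_det]
    congr 1
    ext i j
    simp [Matrix.mvPolynomialX]
  obtain ⟨g, hg⟩ := W689.KS.exists_eval_ne (F * D) (mul_ne_zero hF0 hD0)
  rw [map_mul] at hg
  have hgD := right_ne_zero_of_mul hg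
  have hg1 := left_ne_zero_of_mul hg
  rw [hDg] at hgD
  obtain ⟨f, hf, hf0, -⟩ := hF g hgD hg1
  have hf' : W555.KS.subst g f ∈ srI k L := hf
  set fh := homogeneousComponent q f with hfh
  have h1 : W555.KS.subst g fh ∈ srI k L := by
    rw [hfh, ← W460.KS.subst_component]
    exact W460.KS.srI_component L hf' q
  have h2 : W555.KS.subst g fh = 0 := by
    rw [← support_eq_empty, Finset.eq_empty_iff_forall_notMem]
    intro μ hμ
    have h3 := srI_deg hL h1 μ hμ
    have h4 : (W555.KS.subst g fh).IsHomogeneous q :=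
      W460.KS.subst_homog g (homogeneousComponent_isHomogeneous q f)
    have h5 : μ.degree = q := by
      by_contra hne
      exact mem_support_iff.1 hμ (h4.coeff_eq_zero hne)
    omega
  set G : Matrix (Fin n) (Fin n) k := Matrix.of (fun i j => g (i, j)) with hG
  have hu : IsUnit G.det := isUnit_iff_ne_zero.mpr hgD
  have h6 : fh = 0 := by
    rw [← subst_inv (fun ij => G⁻¹ ij.1 ij.2) g (fun i l => by
      have h7 := congrFun (congrFun (Matrix.mul_nonsing_inv G hu) i) l
      rw [Matrix.mul_apply, Matrix.one_apply] at h7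
      exact h7) fh, h2, map_zero]
  apply hf0
  have h7 := congrArg (coeff m) h6
  rw [hfh, coeff_homogeneousComponent, if_pos hm, coeff_zero] at h7
  exact h7

/-- monomials in the first `N` variables as multisets -/
noncomputable def mono {n N q : ℕ} (hN : N ≤ n) (s : Sym (Fin N) q) : Fin n →₀ ℕ :=
  Multiset.toFinsupp (s.1.map (Fin.castLE hN))

theorem mono_inj {n N q : ℕ} (hN : N ≤ n) : Function.Injective (mono (q := q) hN) := by
  intro s t h
  unfold mono at h
  have h1 := Multiset.toFinsupp.injective h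
  exact Subtype.ext (Multiset.map_injective (Fin.castLE_injective hN) h1)

theorem mono_deg {n N q : ℕ} (hN : N ≤ n) (s : Sym (Fin N) q) : (mono hN s).degree = q := by
  unfold mono
  have h : (Multiset.toFinsupp (s.1.map (Fin.castLE hN))).degree =
      (s.1.map (Fin.castLE hN)).card := by
    conv_rhs => rw [← Multiset.toFinsupp_toMultiset (s.1.map (Fin.castLE hN)),
      Finsupp.card_toMultiset]
    rfl
  rw [h, Multiset.card_map]
  exact s.2

theorem mono_supp {n N q : ℕ} (hN : N ≤ n) (s : Sym (Fin N) q) :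
    ∀ i ∈ (mono hN s).support, (i : ℕ) < N := by
  intro i hi
  unfold mono at hi
  rw [Multiset.toFinsupp_support, Multiset.mem_toFinset, Multiset.mem_map] at hi
  obtain ⟨j, _, rfl⟩ := hi
  exact j.2

theorem phi_le {n : ℕ} (m : Fin n →₀ ℕ) (N : ℕ) (h : ∀ i ∈ m.support, (i : ℕ) < N) :
    ∀ x ∈ phi m, x + 1 < N + m.degree := by
  intro x hx
  unfold phi at hx
  rw [mem_image] at hx
  obtain ⟨j, -, rfl⟩ := hx
  obtain ⟨i, hi, hi'⟩ := (mem_idx m _).1 (List.get_mem (idxList m) j)
  have h2 := h i hi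
  have h3 : (j : ℕ) < m.degree := lt_of_lt_of_eq j.2 (idx_len m)
  rw [← hi']
  omega

/-- **complete skeleta** -/
theorem skel (k : Type) [Field k] (hinf : Infinite k) (hk : CharZero k ∨ CharP k 2)
    (n d q : ℕ) (hq1 : 1 ≤ q) (hq : d + 1 = 2 * q) (hdn : d < n)
    (L : Finset (Finset (Fin n))) (hL : ∀ σ : Finset (Fin n), σ.card ≤ q → σ ∈ L) :
    (n - q - 1).choose q ≤ {S : Finset ℕ | S ∈ shift k L ∧ S ∉ shift k (cyc n d) ∧ S.card = q ∧
      ∀ x ∈ S, x + d + 1 < n + q}.ncard := by
  classical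
  rcases Nat.lt_or_ge n (2 * q + 1) with hn | hn
  · have h0 : (n - q - 1).choose q = 0 := Nat.choose_eq_zero_of_lt (by omega)
    rw [h0]
    exact Nat.zero_le _
  obtain ⟨N, hN⟩ : ∃ N, n = N + 2 * q := ⟨n - 2 * q, by omega⟩
  have hN1 : 1 ≤ N := by omega
  have hNn : N ≤ n := by omega
  let Φ : Sym (Fin N) q → Finset ℕ := fun s => phi (mono hNn s)
  have hΦ : Function.Injective Φ := fun s t h => mono_inj hNn (phi_inj _ _ h)
  have hcard : (n - q - 1).choose q = (Set.range Φ).ncard := by
    rw [← Set.image_univ, Set.ncard_image_of_injective _ hΦ, Set.ncard_univ,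
      Nat.card_eq_fintype_card, Sym.card_sym_fin_eq_multichoose, Nat.multichoose_eq]
    congr 1
    omega
  rw [hcard]
  obtain ⟨hcx, hce⟩ := cyc' n d (by omega) hdn
  refine Set.ncard_le_ncard ?_ ?_
  · rintro _ ⟨s, rfl⟩
    have hdeg := mono_deg hNn s
    have hsup := mono_supp hNn s
    have hphi := phi_le (mono hNn s) N hsup
    rw [hdeg] at hphi
    have hn' : ∀ x ∈ phi (mono hNn s), x < n := by
      intro x hx
      have := hphi x hx
      omega
    refine ⟨⟨mono hNn s, not_gin_low hinf hL _ hdeg, hn', rfl⟩, ?_, ?_, ?_⟩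
    · rintro ⟨m2, h1, h2, h3⟩
      have h4 := phi_inj (mono hNn s) m2 h3
      rw [← h4] at h1
      refine h1 (g1' k hk n d (cyc n d) hdn hcx hce (mono hNn s) ?_)
      unfold Allowed
      rw [not_le]
      have h5 : ∑ i ∈ (univ : Finset (Fin n)).filter (fun i : Fin n => (i : ℕ) + d < n),
          mono hNn s i = q := by
        refine Eq.trans ?_ hdeg
        rw [Finsupp.degree_eq_sum]
        apply sum_subset (filter_subset _ _)
        intro i _ hi
        by_contra hmi
        apply hi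
        rw [mem_filter]
        refine ⟨mem_univ _, ?_⟩
        have := hsup i (Finsupp.mem_support_iff.2 hmi)
        omega
      have h6 : ∑ i ∈ (univ : Finset (Fin n)).filter (fun i : Fin n => (i : ℕ) + d + 1 = n),
          mono hNn s i = 0 := by
        refine sum_eq_zero fun i hi => ?_
        rw [mem_filter] at hi
        by_contra hmi
        have := hsup i (Finsupp.mem_support_iff.2 hmi)
        omega
      rw [h5, h6]
      omega
    · rw [phi_card, hdeg]
    · intro x hx
      have := hphi x hx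
      omega
  · refine Set.Finite.subset (Finset.finite_toSet (Finset.range n).powerset) ?_
    rintro S ⟨⟨mm, -, hx, rfl⟩, -⟩
    rw [Finset.mem_coe, Finset.mem_powerset]
    intro x hxx
    exact Finset.mem_range.2 (hx x hxx)

/-- **Kuehnel's inequality** -/
theorem kuehnel (n q b : ℕ) (hq2 : 2 ≤ q) (hqn : 2 * q ≤ n)
    (L : Finset (Finset (Fin n))) (hL : ∀ σ : Finset (Fin n), σ.card ≤ q → σ ∈ L)
    (Ω : Fin b → Fin b → ZMod 2)
    (ψ : Fin b → Finset (Fin n) → ZMod 2) (h : H67.KS.IsForm L q Ω ψ) :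
    (n - q - 1).choose q ≤ (2 * q - 1).choose q * b :=
  (skel ℚ inferInstance (Or.inl inferInstance) n (2 * q - 1) q (by omega) (by omega) (by omega)
    L hL).trans (mid ℚ inferInstance (Or.inl inferInstance) n (2 * q - 1) q b hq2 (by omega)
      (by omega) L Ω ψ h)

end Pool.Agent.H67.KR
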