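import Mathlib
import Pool.Agent.H67.KR.Mid

/-!
Faces of the shifted complex which avoid the last vertices.
-/

set_option autoImplicit false

namespace Pool.Agent.H67.KR

open Finset MvPolynomial Pool.Agent.W555.KS Pool.Agent.Y131.KS Pool.Agent.H37.KR

theorem avoid_sub (k : Type) [Field k] (hk : CharZero k ∨ CharP k 2)
    (n d q : ℕ) (hq1 : 1 ≤ q) (hq : d + 1 = 2 * q) (hdn : d < n)
    (L : Finset (Finset (Fin n))) :
    {S : Finset ℕ | S ∈ shift k L ∧ S.card = q ∧ ∀ x ∈ S, x + q + 1 < n} ⊆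
    {S : Finset ℕ | S ∈ shift k L ∧ S ∉ shift k (cyc n d) ∧ S.card = q ∧
      ∀ x ∈ S, x + d + 1 < n + q} := by
  classical
  rintro S ⟨hS, hc, hx⟩
  refine ⟨hS, ?_, hc, fun x hxx => by have := hx x hxx; omega⟩
  rintro ⟨m, h1, h2, rfl⟩
  rw [phi_card] at hc
  obtain ⟨hcx, hce⟩ := cyc' n d (by omega) hdn
  refine h1 (g1' k hk n d (cyc n d) hdn hcx hce m ?_)
  -- enough vertices
  have hn : 2 * q < n := by
    by_contra hcon
    have hsub : phi m ⊆ Finset.range (q - 1) := by
      intro x hxx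
      have := hx x hxx
      rw [Finset.mem_range]
      omega
    have := card_le_card hsub
    rw [phi_card, card_range] at this
    omega
  have hsup : ∀ i ∈ m.support, (i : ℕ) ≤ n - 2 * q - 1 := by
    apply phi_bound
    intro x hxx
    have := hx x hxx
    omega
  unfold Allowed
  rw [not_le]
  have h5 : ∑ i ∈ (univ : Finset (Fin n)).filter (fun i : Fin n => (i : ℕ) + d < n),
      m i = q := by
    refine Eq.trans ?_ hc
    rw [Finsupp.degree_eq_sum]
    apply sum_subset (filter_subset _ _)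
    intro i _ hi
    by_contra hmi
    apply hi
    rw [mem_filter]
    refine ⟨mem_univ _, ?_⟩
    have := hsup i (Finsupp.mem_support_iff.2 hmi)
    omega
  have h6 : ∑ i ∈ (univ : Finset (Fin n)).filter (fun i : Fin n => (i : ℕ) + d + 1 = n),
      m i = 0 := by
    refine sum_eq_zero fun i hi => ?_
    rw [mem_filter] at hi
    by_contra hmi
    have := hsup i (Finsupp.mem_support_iff.2 hmi)
    omega
  rw [h5, h6]
  omega

theorem fin_of_shift (k : Type) [Field k] {n : ℕ} (L : Finset (Finset (Fin n)))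
    (T : Set (Finset ℕ)) (hT : T ⊆ shift k L) : T.Finite := by
  refine Set.Finite.subset (Finset.finite_toSet (Finset.range n).powerset) ?_
  intro S hS
  obtain ⟨mm, -, hx, rfl⟩ := hT hS
  rw [Finset.mem_coe, Finset.mem_powerset]
  intro x hxx
  exact Finset.mem_range.2 (hx x hxx)

/-- the bound -/
theorem midA (k : Type) [Field k] (hinf : Infinite k) (hk : CharZero k ∨ CharP k 2)
    (n q b : ℕ) (hq2 : 2 ≤ q) (hn : 2 * q ≤ n)
    (L : Finset (Finset (Fin n))) (Ω : Fin b → Fin b → ZMod 2)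
    (ψ : Fin b → Finset (Fin n) → ZMod 2) (h : H67.KS.IsForm L q Ω ψ) :
    {S : Finset ℕ | S ∈ shift k L ∧ S.card = q ∧ ∀ x ∈ S, x + q + 1 < n}.Finite ∧
    {S : Finset ℕ | S ∈ shift k L ∧ S.card = q ∧ ∀ x ∈ S, x + q + 1 < n}.ncard ≤
      (2 * q - 1).choose q * b := by
  refine ⟨fin_of_shift k L _ fun S hS => hS.1, ?_⟩
  have h1 := mid k hinf hk n (2 * q - 1) q b hq2 (by omega) (by omega) L Ω ψ h
  refine (Set.ncard_le_ncard (avoid_sub k hk n (2 * q - 1) q (by omega) (by omega) (by omega) L)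
    (fin_of_shift k L _ fun S hS => hS.1)).trans h1

end Pool.Agent.H67.KR
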