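import Mathlib
import Pool.Agent.H67.KS.Form
import Pool.Agent.H67.KR.StB

/-!
Certificates: forms representing the obstruction of complete skeleta.
-/

set_option autoImplicit false

namespace Pool.Agent.H67.KR

open Finset Pool.Agent.W555.KS Pool.Agent.Y131.KS

variable {n : ℕ}

theorem parts_of {σ τ : Finset (Fin n)} (hd : Disjoint σ τ) (h : evenPart (σ ∪ τ) = σ) :
    oddPart (σ ∪ τ) = τ := by
  have h1 := union_parts (σ ∪ τ)
  have h2 := disj_parts (σ ∪ τ)
  rw [h] at h1 h2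
  ext v
  have h3 := Finset.ext_iff.1 h1 v
  rw [mem_union, mem_union] at h3
  constructor
  · intro hv
    rcases h3.1 (Or.inr hv) with h4 | h4
    · exact absurd hv (disjoint_left.1 h2 h4)
    · exact h4
  · intro hv
    rcases h3.2 (Or.inr hv) with h4 | h4
    · exact absurd hv (disjoint_left.1 hd h4)
    · exact h4

theorem mn_parts (U : Finset (Fin n)) (hU : U.Nonempty) : mn (evenPart U) (oddPart U) := by
  refine ⟨U.min' hU, ?_, ?_⟩
  · rw [evenPart, mem_filter]
    refine ⟨min'_mem _ _, ?_⟩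
    have : U.filter (fun w => w < U.min' hU) = ∅ := by
      rw [filter_eq_empty_iff]
      intro w hw
      exact not_lt.2 (min'_le _ _ hw)
    rw [this, card_empty]
    exact Even.zero
  · intro w hw
    rw [union_parts] at hw
    exact min'_le _ _ hw

open Classical in
/-- the certificate: the difference of the two cochains is a coboundary -/
theorem cert {b q : ℕ} (hq : 1 ≤ q) (L : Finset (Finset (Fin n))) (Ω : Fin b → Fin b → ZMod 2)
    (ψ : Finset (Fin n) → Fin b → ZMod 2) (lam : Finset (Fin n) → Finset (Fin n) → ZMod 2)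
    (H : ∀ σ τ : Finset (Fin n), σ.card = q → τ.card = q → Disjoint σ τ → mn σ τ →
      (if evenPart (σ ∪ τ) = σ then 1 else 0) + ∑ i, ∑ j, Ω i j * ψ σ i * ψ τ j =
        ∑ v ∈ σ, lam (σ.erase v) τ + ∑ v ∈ τ, lam (τ.erase v) σ)
    (Z : Finset (Fin n) → Finset (Fin n) → ZMod 2) (hZ : H67.KS.MidCyc L q Z) :
    ∑ U ∈ powersetCard (2 * q) univ, Z (evenPart U) (oddPart U) =
      ∑ σ, ∑ τ, if mn σ τ then (∑ i, ∑ j, Ω i j * ψ σ i * ψ τ j) * Z σ τ else 0 := by
  have hz : ∀ σ τ : Finset (Fin n), ¬ (σ.card = q ∧ τ.card = q ∧ Disjoint σ τ) → Z σ τ = 0 := by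
    intro σ τ h
    by_contra hne
    have := hZ.2.1 σ τ hne
    exact h ⟨this.2.2.1, this.2.2.2.1, this.2.2.2.2⟩
  -- (a)
  have ea : ∑ U ∈ powersetCard (2 * q) univ, Z (evenPart U) (oddPart U) =
      ∑ p : Finset (Fin n) × Finset (Fin n),
        if mn p.1 p.2 ∧ evenPart (p.1 ∪ p.2) = p.1 then Z p.1 p.2 else 0 := by
    rw [← sum_filter]
    refine Finset.sum_bij_ne_zero (fun U _ _ => (evenPart U, oddPart U)) ?_ ?_ ?_ ?_
    · intro U hU hne
      have hU' := (mem_powersetCard.1 hU).2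
      rw [mem_filter]
      refine ⟨mem_univ _, mn_parts U ?_, ?_⟩
      · rw [← card_pos]; omega
      · simp only
        rw [union_parts]
    · intro U _ _ U' _ _ h
      rw [Prod.mk.injEq] at h
      rw [← union_parts U, ← union_parts U', h.1, h.2]
    · rintro ⟨σ, τ⟩ hp hne
      rw [mem_filter] at hp
      simp only at hp hne
      have h3 : σ.card = q ∧ τ.card = q ∧ Disjoint σ τ := by
        by_contra hcon
        exact hne (hz σ τ hcon)
      have h4 := parts_of h3.2.2 hp.2.2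
      refine ⟨σ ∪ τ, ?_, ?_, ?_⟩
      · rw [mem_powersetCard]
        refine ⟨subset_univ _, ?_⟩
        rw [card_union_of_disjoint h3.2.2]
        omega
      · rw [hp.2.2, h4]
        exact hne
      · rw [hp.2.2, h4]
    · intro U _ _
      rfl
  -- (c)
  have ec : ∑ σ, ∑ τ, (∑ v ∈ σ, lam (σ.erase v) τ) * Z σ τ = 0 := by
    rw [sum_comm]
    refine sum_eq_zero fun τ _ => ?_
    have h1 : ∑ σ, (∑ v ∈ σ, lam (σ.erase v) τ) * Z σ τ =
        ∑ σ, ∑ v ∈ σ, lam (σ.erase v) τ * Z (insert v (σ.erase v)) τ := by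
      refine sum_congr rfl fun σ _ => ?_
      rw [sum_mul]
      refine sum_congr rfl fun v hv => ?_
      rw [insert_erase hv]
    rw [h1, ← swapSum (fun ρ v => lam ρ τ * Z (insert v ρ) τ)]
    refine sum_eq_zero fun ρ _ => ?_
    rw [← mul_sum]
    by_cases hc : ρ.card + 1 = q ∧ τ.card = q ∧ Disjoint ρ τ
    · have h2 := hZ.2.2 ρ τ hc.1 hc.2.1 hc.2.2
      have h3 : ∑ v ∈ ρᶜ, Z (insert v ρ) τ = ∑ v ∈ (ρ ∪ τ)ᶜ, Z (insert v ρ) τ := by
        symm
        refine sum_subset ?_ ?_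
        · intro v hv
          rw [mem_compl, mem_union, not_or] at hv
          exact mem_compl.2 hv.1
        · intro v hv hv'
          rw [mem_compl] at hv
          rw [mem_compl, not_not, mem_union] at hv'
          refine hz _ _ ?_
          rintro ⟨-, -, h4⟩
          rw [disjoint_insert_left] at h4
          exact h4.1 (hv'.resolve_left hv)
      rw [h3, h2, mul_zero]
    · rw [sum_eq_zero, mul_zero]
      intro v hv
      rw [mem_compl] at hv
      refine hz _ _ ?_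
      rintro ⟨h4, h5, h6⟩
      rw [card_insert_of_notMem hv] at h4
      rw [disjoint_insert_left] at h6
      exact hc ⟨h4, h5, h6.2⟩
  -- (b)
  have eb : ∑ σ, ∑ τ, (if mn σ τ then (∑ v ∈ σ, lam (σ.erase v) τ + ∑ v ∈ τ, lam (τ.erase v) σ) *
      Z σ τ else 0) = ∑ σ, ∑ τ, (∑ v ∈ σ, lam (σ.erase v) τ) * Z σ τ := by
    have h1 : ∑ σ, ∑ τ, (if mn σ τ then (∑ v ∈ σ, lam (σ.erase v) τ +
        ∑ v ∈ τ, lam (τ.erase v) σ) * Z σ τ else 0) =
        ∑ σ, ∑ τ, (if mn σ τ then (∑ v ∈ σ, lam (σ.erase v) τ) * Z σ τ else 0) +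
        ∑ σ, ∑ τ, (if mn σ τ then (∑ v ∈ τ, lam (τ.erase v) σ) * Z σ τ else 0) := by
      rw [← sum_add_distrib]
      refine sum_congr rfl fun σ _ => ?_
      rw [← sum_add_distrib]
      refine sum_congr rfl fun τ _ => ?_
      split_ifs
      · rw [add_mul]
      · rw [add_zero]
    have h2 : ∑ σ, ∑ τ, (if mn σ τ then (∑ v ∈ τ, lam (τ.erase v) σ) * Z σ τ else 0) =
        ∑ σ, ∑ τ, (if mn τ σ then (∑ v ∈ σ, lam (σ.erase v) τ) * Z σ τ else 0) := by
      rw [sum_comm]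
      refine sum_congr rfl fun σ _ => sum_congr rfl fun τ _ => ?_
      rw [hZ.1 τ σ]
    rw [h1, h2, ← sum_add_distrib]
    refine sum_congr rfl fun σ _ => ?_
    rw [← sum_add_distrib]
    refine sum_congr rfl fun τ _ => ?_
    by_cases h3 : σ.card = q ∧ τ.card = q ∧ Disjoint σ τ
    · have h4 := mn_swap h3.2.2 (by
        obtain ⟨v, hv⟩ := card_pos.1 (show 0 < σ.card by omega)
        exact ⟨v, mem_union_left _ hv⟩)
      by_cases h5 : mn σ τ
      · rw [if_pos h5, if_neg (fun h' => (h4.1 h') h5), add_zero]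
      · rw [if_neg h5, if_pos (h4.2 h5), zero_add]
    · rw [hz σ τ h3, mul_zero, ite_self, ite_self, add_zero]
  rw [ea, Fintype.sum_prod_type]
  have ed : ∀ σ τ : Finset (Fin n),
      (if mn σ τ then (∑ i, ∑ j, Ω i j * ψ σ i * ψ τ j) * Z σ τ else 0) =
      (if mn σ τ ∧ evenPart (σ ∪ τ) = σ then Z σ τ else 0) +
      (if mn σ τ then (∑ v ∈ σ, lam (σ.erase v) τ + ∑ v ∈ τ, lam (τ.erase v) σ) * Z σ τ
        else 0) := by
    intro σ τ
    by_cases h5 : mn σ τ
    · by_cases h3 : σ.card = q ∧ τ.card = q ∧ Disjoint σ τ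
      · rw [if_pos h5, if_pos h5, ← H σ τ h3.1 h3.2.1 h3.2.2 h5]
        by_cases h6 : evenPart (σ ∪ τ) = σ
        · rw [if_pos ⟨h5, h6⟩, if_pos h6]
          have : ∀ a z : ZMod 2, a * z = z + (1 + a) * z := by decide
          exact this _ _
        · rw [if_neg (fun h => h6 h.2), if_neg h6, zero_add, zero_add]
      · rw [hz σ τ h3, mul_zero, mul_zero]
        simp
    · rw [if_neg h5, if_neg h5, if_neg (fun h => h5 h.1), add_zero]
  rw [sum_congr rfl fun σ _ => sum_congr rfl fun τ _ => ed σ τ]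
  have ee : ∑ σ, ∑ τ, ((if mn σ τ ∧ evenPart (σ ∪ τ) = σ then Z σ τ else 0) +
      (if mn σ τ then (∑ v ∈ σ, lam (σ.erase v) τ + ∑ v ∈ τ, lam (τ.erase v) σ) * Z σ τ
        else 0)) = ∑ σ, ∑ τ, (if mn σ τ ∧ evenPart (σ ∪ τ) = σ then Z σ τ else 0) +
      ∑ σ, ∑ τ, (if mn σ τ then (∑ v ∈ σ, lam (σ.erase v) τ + ∑ v ∈ τ, lam (τ.erase v) σ) * Z σ τ
        else 0) := by
    rw [← sum_add_distrib]
    exact sum_congr rfl fun σ _ => sum_add_distrib
  rw [ee, eb, ec, add_zero]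

end Pool.Agent.H67.KR
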