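import Mathlib
import Pool.Agent.H67.KR.Avoid
import Pool.Agent.H67.KS.Form
import Pool.Agent.H36.KR.L
import Pool.Graph.R_seed8.W563.KS.DStep
import Pool.Graph.R_seed8.W386.KS.DLow
import Pool.Graph.R_seed8.W374.KS.Min
import Pool.Graph.R_seed8.W839.KS.DTop1

/-!
The number of faces in the middle dimension.
-/

set_option autoImplicit false

namespace Pool.Agent.H67.KR

open Finset MvPolynomial Pool.Agent.W555.KS

section
variable {n : ℕ} {k : Type} [Field k]

theorem sq_step (I : Ideal (MvPolynomial (Fin n) k)) (S : Submodule k (MvPolynomial (Fin n) k ⧸ I))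
    (m : Fin n →₀ ℕ) (v : Fin n) (hv : 1 ≤ m v) (c : Fin n → k) (hc1 : c v = 1)
    (hc0 : ∀ w ∈ m.support, w ≠ v → c w = 0) (hc : lf c ∈ I)
    (hS : ∀ w, w ∉ m.support →
      Ideal.Quotient.mk I (monomial (m - Finsupp.single v 1 + Finsupp.single w 1) 1) ∈ S) :
    Ideal.Quotient.mk I (monomial m 1) ∈ S := by
  have h1 : ∀ w : Fin n, monomial (m - Finsupp.single v 1 + Finsupp.single w 1) (1 : k) =
      monomial (m - Finsupp.single v 1) 1 * X w := by
    intro w
    rw [X, monomial_mul, one_mul]
  have hle : Finsupp.single v 1 ≤ m := Finsupp.single_le_iff.2 hv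
  have h0 : m - Finsupp.single v 1 + Finsupp.single v 1 = m := tsub_add_cancel_of_le hle
  have h2 : ∑ w, c w • Ideal.Quotient.mk I
      (monomial (m - Finsupp.single v 1 + Finsupp.single w 1) (1 : k)) = 0 := by
    have e : Ideal.Quotient.mk I (monomial (m - Finsupp.single v 1) (1 : k) * lf c) = 0 :=
      Ideal.Quotient.eq_zero_iff_mem.2 (Ideal.mul_mem_left _ _ hc)
    rw [← e]
    unfold lf
    rw [mul_sum, map_sum]
    refine sum_congr rfl fun w _ => ?_
    rw [h1 w]
    have e2 : monomial (m - Finsupp.single v 1) (1 : k) * (C (c w) * X w) =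
        c w • (monomial (m - Finsupp.single v 1) (1 : k) * X w) := by
      rw [MvPolynomial.smul_eq_C_mul]
      ring
    rw [e2]
    rfl
  rw [← Finset.add_sum_erase univ _ (mem_univ v), h0, hc1, one_smul] at h2
  rw [eq_neg_of_add_eq_zero_left h2]
  refine S.neg_mem (S.sum_mem fun w hw => ?_)
  by_cases hws : w ∈ m.support
  · rw [hc0 w hws (Finset.ne_of_mem_erase hw), zero_smul]
    exact S.zero_mem
  · exact S.smul_mem _ (hS w hws)

open Classical in
theorem sq_span (I : Ideal (MvPolynomial (Fin n) k)) (r : ℕ) (L : Finset (Finset (Fin n)))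
    (hI : srI k L ≤ I)
    (hex : ∀ σ : Finset (Fin n), σ.card < r → ∀ v ∈ σ, ∃ c : Fin n → k, c v = 1 ∧
      (∀ w ∈ σ, w ≠ v → c w = 0) ∧ lf c ∈ I) :
    ∀ (N : ℕ) (m : Fin n →₀ ℕ), m.degree = r → m.support.card + N = r →
      Ideal.Quotient.mk I (monomial m 1) ∈ Submodule.span k
        (((L.filter (fun σ => σ.card = r)).image
          (fun σ : Finset (Fin n) => Ideal.Quotient.mk I (∏ v ∈ σ, X v)) : Finset _) :
          Set (MvPolynomial (Fin n) k ⧸ I)) := by
  classical
  intro N
  induction N with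
  | zero =>
    intro m hm hs
    have h1 : ∀ v ∈ m.support, m v = 1 := by
      have h2 : ∑ v ∈ m.support, m v = ∑ v ∈ m.support, 1 := by
        rw [sum_const, smul_eq_mul, mul_one]
        have : m.degree = ∑ v ∈ m.support, m v := rfl
        omega
      have h3 := (Finset.sum_eq_sum_iff_of_le (f := fun _ => 1) (g := fun v => m v)
        (s := m.support) (fun v hv => Nat.one_le_iff_ne_zero.2 (Finsupp.mem_support_iff.1 hv))).1
        h2.symm
      exact fun v hv => (h3 v hv).symm
    have h2 : monomial m (1 : k) = ∏ v ∈ m.support, X v := by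
      rw [monomial_eq, C_1, one_mul]
      refine Finset.prod_congr rfl fun v hv => ?_
      show X v ^ m v = X v
      rw [h1 v hv, pow_one]
    rw [h2]
    by_cases hL : m.support ∈ L
    · refine Submodule.subset_span ?_
      rw [mem_coe, mem_image]
      exact ⟨m.support, mem_filter.2 ⟨hL, by omega⟩, rfl⟩
    · have : Ideal.Quotient.mk I (∏ v ∈ m.support, (X v : MvPolynomial (Fin n) k)) = 0 :=
        Ideal.Quotient.eq_zero_iff_mem.2 (hI (Ideal.subset_span ⟨_, hL, rfl⟩))
      rw [this]
      exact Submodule.zero_mem _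
  | succ N ih =>
    intro m hm hs
    have hex2 : ∃ v ∈ m.support, 2 ≤ m v := by
      by_contra hcon
      push Not at hcon
      have h2 : ∑ v ∈ m.support, m v ≤ ∑ v ∈ m.support, 1 :=
        sum_le_sum fun v hv => by have := hcon v hv; omega
      rw [sum_const, smul_eq_mul, mul_one] at h2
      have : m.degree = ∑ v ∈ m.support, m v := rfl
      omega
    obtain ⟨v, hv, hv2⟩ := hex2
    obtain ⟨c, hc1, hc0, hc⟩ := hex m.support (by omega) v hv
    refine sq_step I _ m v (by omega) c hc1 hc0 hc fun w hw => ih _ ?_ ?_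
    · rw [map_add, ← hm]
      have hle : Finsupp.single v 1 ≤ m := Finsupp.single_le_iff.2 (by omega)
      conv_rhs => rw [← tsub_add_cancel_of_le hle, map_add]
      rw [Finsupp.degree_single, Finsupp.degree_single]
    · have hsup : (m - Finsupp.single v 1 + Finsupp.single w 1).support = insert w m.support := by
        ext x
        rw [Finsupp.mem_support_iff, mem_insert, Finsupp.mem_support_iff, Finsupp.add_apply,
          Finsupp.tsub_apply, Finsupp.single_apply, Finsupp.single_apply]
        by_cases hx : v = x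
        · subst hx
          rw [if_pos rfl]
          constructor
          · intro _
            exact Or.inr (by omega)
          · intro _
            omega
        · rw [if_neg hx]
          by_cases hx2 : w = x
          · rw [if_pos hx2]
            constructor
            · intro _
              exact Or.inl hx2.symm
            · intro _
              omega
          · rw [if_neg hx2]
            constructor
            · intro h
              exact Or.inr (by omega)
            · rintro (h | h)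
              · exact absurd h.symm hx2
              · omega
      rw [hsup, card_insert_of_notMem hw]
      omega

theorem dim_le (I : Ideal (MvPolynomial (Fin n) k)) (r : ℕ)
    (T : Finset (MvPolynomial (Fin n) k ⧸ I))
    (h : ∀ m : Fin n →₀ ℕ, m.degree = r → Ideal.Quotient.mk I (monomial m 1) ∈
      Submodule.span k (T : Set (MvPolynomial (Fin n) k ⧸ I))) :
    dimQ I r ≤ T.card := by
  unfold dimQ
  have h1 : Submodule.map (Ideal.Quotient.mkₐ k I).toLinearMap (homogeneousSubmodule (Fin n) k r) ≤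
      Submodule.span k (T : Set (MvPolynomial (Fin n) k ⧸ I)) := by
    rintro _ ⟨p, hp, rfl⟩
    rw [SetLike.mem_coe, mem_homogeneousSubmodule] at hp
    rw [p.as_sum, map_sum]
    refine Submodule.sum_mem _ fun m hm => ?_
    have h2 : m.degree = r := by
      by_contra hne
      exact (mem_support_iff.1 hm) (hp.coeff_eq_zero hne)
    have h3 : monomial m (coeff m p) = coeff m p • monomial m (1 : k) := by
      rw [smul_monomial, smul_eq_mul, mul_one]
    rw [h3, map_smul]
    exact Submodule.smul_mem _ _ (h m h2)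
  have : FiniteDimensional k (Submodule.span k (T : Set (MvPolynomial (Fin n) k ⧸ I))) :=
    FiniteDimensional.span_finset k T
  exact (Submodule.finrank_mono h1).trans (finrank_span_finset_le_card T)

end

theorem exform (n d j r : ℕ) (hr : r ≤ j + 1) (hj : j ≤ d + 1) (L : Finset (Finset (Fin n)))
    (σ : Finset (Fin n)) (hσ : σ.card < r) (v : Fin n) (hv : v ∈ σ) :
    ∃ c : Fin n → Kf (d + 1) n, c v = 1 ∧ (∀ w ∈ σ, w ≠ v → c w = 0) ∧ lf c ∈ Ij n d j L := by
  classical
  obtain ⟨s, hs⟩ : ∃ s, σ.card = s := ⟨_, rfl⟩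
  set g : Fin s → Fin n := fun l => (σ.orderEmbOfFin hs l) with hg
  have hginj : Function.Injective g := (σ.orderEmbOfFin hs).injective
  have hgsurj : ∀ v ∈ σ, ∃ l, g l = v := by
    intro v hv
    have h2 : v ∈ Set.range (σ.orderEmbOfFin hs) := by rw [σ.range_orderEmbOfFin hs]; exact hv
    exact h2
  let f : Fin s → Fin (d + 1) := fun i => ⟨i, by omega⟩
  have hf : Function.Injective f := by
    intro a b hab
    have := congrArg Fin.val hab
    exact Fin.ext this
  have hB := W374.KS.minor (d + 1) n s f g hf hginj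
  set B : Matrix (Fin s) (Fin s) (Kf (d + 1) n) :=
    Matrix.of (fun i l => gen (d + 1) n (f i) (g l)) with hBdef
  obtain ⟨l0, hl0⟩ := hgsurj v hv
  have hu : IsUnit B.det := isUnit_iff_ne_zero.2 hB
  let y : Fin s → Kf (d + 1) n := fun i => B⁻¹ l0 i
  have hy : ∀ l, ∑ i, y i * gen (d + 1) n (f i) (g l) = if l0 = l then 1 else 0 := by
    intro l
    have h1 := congrFun (congrFun (Matrix.nonsing_inv_mul B hu) l0) l
    rw [Matrix.mul_apply, Matrix.one_apply] at h1
    exact h1
  refine ⟨fun w => ∑ i, y i * gen (d + 1) n (f i) w, ?_, ?_, ?_⟩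
  · show ∑ i, y i * gen (d + 1) n (f i) v = 1
    rw [← hl0, hy l0, if_pos rfl]
  · intro w hw hwv
    obtain ⟨l, hl⟩ := hgsurj w hw
    show ∑ i, y i * gen (d + 1) n (f i) w = 0
    rw [← hl, hy l, if_neg]
    rintro rfl
    exact hwv (hl.symm.trans hl0)
  · have h1 : lf (fun w => ∑ i, y i * gen (d + 1) n (f i) w) =
        ∑ i, C (y i) * lf (gen (d + 1) n (f i)) := by
      unfold lf
      simp only [map_sum, map_mul, sum_mul, mul_sum]
      rw [sum_comm]
      refine sum_congr rfl fun i _ => sum_congr rfl fun w _ => ?_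
      ring
    rw [h1]
    refine Ideal.sum_mem _ fun i _ => Ideal.mul_mem_left _ _ ?_
    refine Ideal.mem_sup_right (Ideal.subset_span ⟨f i, ?_, rfl⟩)
    show (i : ℕ) < j
    have := i.2
    omega

theorem low (n d j r : ℕ) (hr : r ≤ j + 1) (hj : j ≤ d + 1) (L : Finset (Finset (Fin n))) :
    dimQ (Ij n d j L) r ≤ (L.filter (fun σ => σ.card = r)).card := by
  classical
  have hI : srI (Kf (d + 1) n) L ≤ Ij n d j L := le_sup_left
  refine (dim_le (Ij n d j L) r ((L.filter (fun σ => σ.card = r)).image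
          (fun σ : Finset (Fin n) => Ideal.Quotient.mk (Ij n d j L) (∏ v ∈ σ, X v))) ?_).trans
          card_image_le
  intro m hm
  have hle : m.support.card ≤ r := by
    have h2 : ∑ v ∈ m.support, 1 ≤ ∑ v ∈ m.support, m v :=
      sum_le_sum fun v hv => Nat.one_le_iff_ne_zero.2 (Finsupp.mem_support_iff.1 hv)
    rw [sum_const, smul_eq_mul, mul_one] at h2
    have : m.degree = ∑ v ∈ m.support, m v := rfl
    omega
  exact sq_span _ r L hI (fun σ hσ v hv => exform n d j r hr hj L σ hσ v hv) (r - m.support.card) m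
    hm (by omega)

theorem Ij_succ' (n d j : ℕ) (hj : j < d + 1) (L : Finset (Finset (Fin n))) :
    Ij n d (j + 1) L =
      Ij n d j L ⊔ Ideal.span {lf (gen (d + 1) n (⟨j, by omega⟩ : Fin (d + 1)))} := by
  unfold Ij
  rw [sup_assoc, ← Ideal.span_union]
  congr 2
  ext p
  simp only [Set.mem_ofPred_eq, Set.mem_union, Set.mem_singleton_iff]
  constructor
  · rintro ⟨i, hi, rfl⟩
    rcases Nat.lt_succ_iff_lt_or_eq.1 hi with h | h
    · exact Or.inl ⟨i, h, rfl⟩
    · right
      congr 2
      exact Fin.ext h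
  · rintro (⟨i, hi, rfl⟩ | rfl)
    · exact ⟨i, by omega, rfl⟩
    · exact ⟨⟨j, by omega⟩, by simp, rfl⟩

theorem steps (n d r : ℕ) (L : Finset (Finset (Fin n))) (j : ℕ) (hr : r ≤ j + 1) :
    ∀ t, j + t ≤ d + 1 → dimQ (Ij n d j L) (r + 1) ≤
      t * (L.filter (fun σ => σ.card = r)).card + dimQ (Ij n d (j + t) L) (r + 1) := by
  intro t
  induction t with
  | zero =>
    intro _
    rw [Nat.zero_mul, Nat.zero_add]
    exact le_rfl
  | succ t ih =>
    intro ht
    have h1 := ih (by omega)
    have h2 := W563.KS.dim_step _ (W563.KS.Ij_hom n d (j + t) L)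
      (lf (gen (d + 1) n (⟨j + t, by omega⟩ : Fin (d + 1)))) (W563.KS.lf_hom _) r
    rw [← Ij_succ' n d (j + t) (by omega) L] at h2
    have h3 := low n d (j + t) r (by omega) (by omega) L
    rw [Nat.succ_mul, show j + (t + 1) = j + t + 1 by ring]
    omega

theorem top_le (n d q b : ℕ) (hq2 : 2 ≤ q) (hq : d + 1 = 2 * q)
    (L : Finset (Finset (Fin n))) (Ω : Fin b → Fin b → ZMod 2)
    (ψ : Fin b → Finset (Fin n) → ZMod 2) (h : H67.KS.IsForm L q Ω ψ) :
    dimQ (Ij n d (d + 1) L) q ≤ d.choose q * b := by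
  classical
  obtain ⟨s, hs1, hs2, hs3⟩ := H67.KS.fewF_gen hq2 hq L h (gen (d + 1) n) (H67.KS.ind2_gen n d)
    (Ij n d (d + 1) L) le_sup_left
    (fun i => Ideal.mem_sup_right (Ideal.subset_span ⟨i, i.2, rfl⟩))
  set I := Ij n d (d + 1) L with hI
  refine (dim_le I q (s.image (fun β => Ideal.Quotient.mk I (monomial β 1))) ?_).trans
    (card_image_le.trans hs1)
  intro m hm
  have hmh : (monomial m (1 : Kf (d + 1) n)).IsHomogeneous q := isHomogeneous_monomial 1 hm
  obtain ⟨a, ha, p, hp, hap⟩ := Submodule.mem_sup.1 (hs3 _ hmh)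
  have h2 := congrArg (homogeneousComponent q) hap
  rw [map_add, homogeneousComponent_of_mem hmh, if_pos rfl] at h2
  have h3 : homogeneousComponent q a ∈ I :=
    homogeneousComponent_mem_of_mem (W563.KS.Ij_hom n d (d + 1) L) ha _
  have hp' : p ∈ Ideal.span (Set.range (fun β : s => monomial β.1 (1 : Kf (d + 1) n))) := by
    have e : (fun m => monomial m (1 : Kf (d + 1) n)) '' (s : Set (Fin n →₀ ℕ)) =
        Set.range (fun β : s => monomial β.1 (1 : Kf (d + 1) n)) := by
      ext x
      constructor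
      · rintro ⟨β, hβ, rfl⟩
        exact ⟨⟨β, hβ⟩, rfl⟩
      · rintro ⟨β, rfl⟩
        exact ⟨β.1, β.2, rfl⟩
    rw [← e]
    exact hp
  have h4 := H36.KR.component_span (fun β : s => monomial β.1 (1 : Kf (d + 1) n))
    (fun β => isHomogeneous_monomial 1 (hs2 β.1 β.2)) p hp'
  have h5 : Ideal.Quotient.mk I (monomial m 1) = (Ideal.Quotient.mkₐ (Kf (d + 1) n) I).toLinearMap
      (homogeneousComponent q p) := by
    rw [← h2]
    show Ideal.Quotient.mk I _ = Ideal.Quotient.mk I _
    rw [map_add, Ideal.Quotient.eq_zero_iff_mem.2 h3, zero_add]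
  rw [h5]
  have h6 := Submodule.mem_map_of_mem
    (f := (Ideal.Quotient.mkₐ (Kf (d + 1) n) I).toLinearMap) h4
  rw [Submodule.map_span, ← Set.range_comp] at h6
  refine Submodule.span_mono ?_ h6
  rintro _ ⟨β, rfl⟩
  rw [mem_coe, mem_image]
  exact ⟨β.1, β.2, rfl⟩

/-- **the inequality for the numbers of faces** -/
theorem fvec (n q b : ℕ) (hq2 : 2 ≤ q) (L : Finset (Finset (Fin n))) (hL : IsCx L)
    (Ω : Fin b → Fin b → ZMod 2)
    (ψ : Fin b → Finset (Fin n) → ZMod 2) (h : H67.KS.IsForm L q Ω ψ) :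
    (L.filter (fun σ => σ.card = q)).card ≤
      (q + 1) * (L.filter (fun σ => σ.card + 1 = q)).card + (2 * q - 1).choose q * b := by
  obtain ⟨r, rfl⟩ : ∃ r, q = r + 1 := ⟨q - 1, by omega⟩
  have h1 := W386.KS.dlow W374.KS.minor n (2 * (r + 1) - 1) r L hL (by omega)
  have h2 := steps n (2 * (r + 1) - 1) r L r (by omega) (r + 2) (by omega)
  rw [show r + (r + 2) = 2 * (r + 1) - 1 + 1 by omega] at h2
  have h3 := top_le n (2 * (r + 1) - 1) (r + 1) b hq2 (by omega) L Ω ψ h
  have h4 : L.filter (fun σ => σ.card + 1 = r + 1) = L.filter (fun σ => σ.card = r) :=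
    filter_congr fun σ _ => by omega
  rw [h4]
  have h5 : r + 1 + 1 = r + 2 := rfl
  rw [h5]
  omega

/-- elimination of `j` variables -/
theorem topj (n d j : ℕ) (hj : j ≤ d + 1) (hjn : j < n) (L : Finset (Finset (Fin n))) (r : ℕ) :
    dimQ (Ij n d j L) r ≤ (n - j + r - 1).choose r := by
  classical
  set I := Ij n d j L with hI
  set φ := Ideal.Quotient.mkₐ (Kf (d + 1) n) I with hφ
  let x : Fin n → (MvPolynomial (Fin n) (Kf (d + 1) n) ⧸ I) := fun v => φ (X v)
  let x' : Fin (n - j) → (MvPolynomial (Fin n) (Kf (d + 1) n) ⧸ I) :=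
    fun w => x (Fin.castLE (Nat.sub_le n j) w)
  set W := Submodule.span (Kf (d + 1) n) (Set.range x') with hW
  let g : Fin j → Fin n := fun l => ⟨n - j + l, by omega⟩
  have hg : Function.Injective g := by
    intro a b hab
    have h1 := congrArg Fin.val hab
    simp only [g] at h1
    exact Fin.ext (by omega)
  let f : Fin j → Fin (d + 1) := fun i => ⟨i, by omega⟩
  have hf : Function.Injective f := by
    intro a b hab
    have := congrArg Fin.val hab
    exact Fin.ext this
  -- small variables
  have hsmall : ∀ v : Fin n, (v : ℕ) < n - j → x v ∈ W := by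
    intro v hv
    apply Submodule.subset_span
    exact ⟨⟨v, hv⟩, rfl⟩
  -- the relations
  have hrel : ∀ i : Fin j, ∑ v, gen (d + 1) n (f i) v • x v = 0 := by
    intro i
    have h1 : lf (gen (d + 1) n (f i)) ∈ I := by
      rw [hI]
      unfold Ij
      apply Ideal.mem_sup_right
      apply Ideal.subset_span
      exact ⟨f i, i.2, rfl⟩
    have h2 : φ (lf (gen (d + 1) n (f i))) = 0 := by
      rw [hφ, Ideal.Quotient.mkₐ_eq_mk]
      exact Ideal.Quotient.eq_zero_iff_mem.2 h1
    rw [← h2]
    unfold lf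
    rw [map_sum]
    apply Finset.sum_congr rfl
    intro v _
    rw [← MvPolynomial.smul_eq_C_mul]
    exact (map_smul φ _ _).symm
  have himg : (univ : Finset (Fin j)).image g = univ.filter fun v : Fin n => ¬ (v : ℕ) < n - j := by
    ext v
    simp only [mem_image, mem_univ, true_and, mem_filter, not_lt]
    constructor
    · rintro ⟨l, rfl⟩
      simp only [g]
      omega
    · intro hv
      refine ⟨⟨v - (n - j), by have := v.2; omega⟩, ?_⟩
      apply Fin.ext
      simp only [g]
      omega
  have hbig : ∀ i : Fin j, ∑ l : Fin j, gen (d + 1) n (f i) (g l) • x (g l) ∈ W := by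
    intro i
    have h1 : ∑ l : Fin j, gen (d + 1) n (f i) (g l) • x (g l) =
        ∑ v ∈ univ.filter (fun v : Fin n => ¬ (v : ℕ) < n - j), gen (d + 1) n (f i) v • x v := by
      rw [← himg, Finset.sum_image hg.injOn]
    have h2 := Finset.sum_filter_add_sum_filter_not univ (fun v : Fin n => (v : ℕ) < n - j)
      (fun v => gen (d + 1) n (f i) v • x v)
    rw [hrel i] at h2
    rw [h1, eq_neg_of_add_eq_zero_right h2]
    apply Submodule.neg_mem
    apply Submodule.sum_mem
    intro v hv
    exact Submodule.smul_mem _ _ (hsmall v (mem_filter.1 hv).2)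
  -- inversion
  let M : Matrix (Fin j) (Fin j) (Kf (d + 1) n) :=
    Matrix.of (fun i l : Fin j => gen (d + 1) n (f i) (g l))
  have hdet : M.det ≠ 0 := W374.KS.minor (d + 1) n j f g hf hg
  have hinv : M⁻¹ * M = 1 := Matrix.nonsing_inv_mul M (isUnit_iff_ne_zero.2 hdet)
  have hlast : ∀ l : Fin j, x (g l) ∈ W := by
    intro l
    have h1 : x (g l) = ∑ i : Fin j, M⁻¹ l i • ∑ l' : Fin j, M i l' • x (g l') := by
      have h2 : ∀ l' : Fin j, ∑ i : Fin j, M⁻¹ l i * M i l' = if l = l' then 1 else 0 := by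
        intro l'
        have := congrFun (congrFun hinv l) l'
        rw [Matrix.mul_apply, Matrix.one_apply] at this
        exact this
      simp only [Finset.smul_sum, smul_smul]
      rw [Finset.sum_comm]
      simp only [← Finset.sum_smul, h2]
      simp
    rw [h1]
    apply Submodule.sum_mem
    intro i _
    exact Submodule.smul_mem _ _ (hbig i)
  have hall : ∀ v, x v ∈ W := by
    intro v
    by_cases hv : (v : ℕ) < n - j
    · exact hsmall v hv
    · have h1 : v ∈ (univ : Finset (Fin j)).image g := by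
        rw [himg, mem_filter]; exact ⟨mem_univ _, hv⟩
      obtain ⟨l, -, rfl⟩ := mem_image.1 h1
      exact hlast l
  -- conclusion
  have hmap : Submodule.map φ.toLinearMap (homogeneousSubmodule (Fin n) (Kf (d + 1) n) r) ≤
      W ^ r := by
    rw [← MvPolynomial.homogeneousSubmodule_one_pow, Submodule.map_pow]
    refine pow_le_pow_left' ?_ r
    rw [MvPolynomial.homogeneousSubmodule_one_eq_span_X, Submodule.map_span, Submodule.span_le]
    rintro _ ⟨_, ⟨v, rfl⟩, rfl⟩
    exact hall v
  have hfin := W839.KS.DTop1.finrank_pow_le x' r _ hmap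
  unfold dimQ
  exact hfin

theorem stepsC (n d h : ℕ) (L : Finset (Finset (Fin n))) (hn : d < n) :
    ∀ t, h + t ≤ d + 1 → dimQ (Ij n d h L) (h + 1) + (n - t).choose (h + 1) ≤
      n.choose (h + 1) + dimQ (Ij n d (h + t) L) (h + 1) := by
  intro t
  induction t with
  | zero =>
    intro _
    exact (Nat.add_comm (dimQ (Ij n d h L) (h + 1)) (n.choose (h + 1))).le
  | succ t ih =>
    intro ht
    have h1 := ih (by omega)
    have h2 := W563.KS.dim_step _ (W563.KS.Ij_hom n d (h + t) L)
      (lf (gen (d + 1) n (⟨h + t, by omega⟩ : Fin (d + 1)))) (W563.KS.lf_hom _) h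
    rw [← Ij_succ' n d (h + t) (by omega) L] at h2
    have h3 := topj n d (h + t) (by omega) (by omega) L h
    have h4 : (n - t).choose (h + 1) = (n - (t + 1)).choose h + (n - (t + 1)).choose (h + 1) := by
      obtain ⟨N, hN⟩ : ∃ N, n - t = N + 1 := ⟨n - t - 1, by omega⟩
      rw [hN, show n - (t + 1) = N by omega, Nat.choose_succ_succ]
    rw [show n - (h + t) + h - 1 = n - (t + 1) by omega] at h3
    rw [show h + (t + 1) = h + t + 1 by ring]
    omega

/-- **the second inequality for the numbers of faces** -/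
theorem fvec2 (n q b : ℕ) (hq2 : 2 ≤ q) (hn : 2 * q ≤ n) (L : Finset (Finset (Fin n)))
    (hL : IsCx L) (Ω : Fin b → Fin b → ZMod 2)
    (ψ : Fin b → Finset (Fin n) → ZMod 2) (h : H67.KS.IsForm L q Ω ψ) :
    (L.filter (fun σ => σ.card = q)).card + (n - q - 1).choose q ≤
      n.choose q + (2 * q - 1).choose q * b := by
  obtain ⟨r, rfl⟩ : ∃ r, q = r + 1 := ⟨q - 1, by omega⟩
  have h1 := W386.KS.dlow W374.KS.minor n (2 * (r + 1) - 1) r L hL (by omega)
  have h2 := stepsC n (2 * (r + 1) - 1) r L (by omega) (r + 2) (by omega)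
  rw [show r + (r + 2) = 2 * (r + 1) - 1 + 1 by omega] at h2
  have h3 := top_le n (2 * (r + 1) - 1) (r + 1) b hq2 (by omega) L Ω ψ h
  rw [show n - (r + 1) - 1 = n - (r + 2) by omega]
  omega

/-- **complete skeleta**: the faces which avoid the last vertices -/
theorem skelA (k : Type) [Field k] (hinf : Infinite k)
    (n q : ℕ) (hq1 : 1 ≤ q) (L : Finset (Finset (Fin n)))
    (hL : ∀ σ : Finset (Fin n), σ.card ≤ q → σ ∈ L) :
    (n - q - 1).choose q ≤
      {S : Finset ℕ | S ∈ shift k L ∧ S.card = q ∧ ∀ x ∈ S, x + q + 1 < n}.ncard := by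
  classical
  rcases Nat.lt_or_ge n (2 * q + 1) with hn | hn
  · have h0 : (n - q - 1).choose q = 0 := Nat.choose_eq_zero_of_lt (by omega)
    rw [h0]
    exact Nat.zero_le _
  obtain ⟨N, hN⟩ : ∃ N, n = N + 2 * q := ⟨n - 2 * q, by omega⟩
  have hN1 : 1 ≤ N := by omega
  have hNn : N ≤ n := by omega
  let Φ : Sym (Fin N) q → Finset ℕ := fun s => phi (mono hNn s)
  have hΦ : Function.Injective Φ := fun s t h => mono_inj hNn (phi_inj _ _ h)
  have hcard : (n - q - 1).choose q = (Set.range Φ).ncard := by
    rw [← Set.image_univ, Set.ncard_image_of_injective _ hΦ, Set.ncard_univ,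
      Nat.card_eq_fintype_card, Sym.card_sym_fin_eq_multichoose, Nat.multichoose_eq]
    congr 1
    omega
  rw [hcard]
  refine Set.ncard_le_ncard ?_ ?_
  · rintro _ ⟨s, rfl⟩
    have hdeg := mono_deg hNn s
    have hsup := mono_supp hNn s
    have hphi := phi_le (mono hNn s) N hsup
    rw [hdeg] at hphi
    have hn' : ∀ x ∈ phi (mono hNn s), x < n := by
      intro x hx
      have := hphi x hx
      omega
    refine ⟨⟨mono hNn s, not_gin_low hinf hL _ hdeg, hn', rfl⟩, ?_, ?_⟩
    · rw [phi_card, hdeg]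
    · intro x hx
      have := hphi x hx
      omega
  · exact fin_of_shift k L _ fun S hS => hS.1

end Pool.Agent.H67.KR
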