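import Mathlib
import Pool.Agent.H67.KR.Fin1
import Pool.Agent.H37.KR.Main

/-!
All faces outside the shifting of the cyclic polytope.
-/

set_option autoImplicit false

namespace Pool.Agent.H67.KR

open Finset MvPolynomial Pool.Agent.W555.KS Pool.Agent.Y131.KS Pool.Agent.H37.KR

/-- the decomposition of a face outside -/
theorem fin3 (k : Type) [Field k] (hinf : Infinite k) (hk : CharZero k ∨ CharP k 2) (n d : ℕ)
    (L : Finset (Finset (Fin n))) (hd : 1 ≤ d) (hdn : d < n) (S : Finset ℕ)
    (hS : S ∈ shift k L) (hSc : S ∉ shift k (cyc n d)) :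
    ∃ m' m'' : Fin n →₀ ℕ, S = phi (m' + m'') ∧ d < 2 * m'.degree ∧
      (phi m' ∈ shift k L ∧ phi m' ∉ shift k (cyc n d) ∧ (phi m').card = m'.degree ∧
        ∀ x ∈ phi m', x + d + 1 < n + m'.degree) ∧
      ∀ i ∈ m''.support, n ≤ (i : ℕ) + d ∧ (i : ℕ) + S.card ≤ n := by
  classical
  obtain ⟨m, hm1, hm2, rfl⟩ := hS
  have hna : ¬ Allowed n d m := by
    intro hal
    exact hSc ⟨m, allowed k hinf hk n d hd hdn m (W398.KS.phi_lt n m hm2) hal, hm2, rfl⟩
  set m' : Fin n →₀ ℕ := m.filter (fun i => (i : ℕ) + d < n) with hm'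
  set m'' : Fin n →₀ ℕ := m.filter (fun i => ¬ (i : ℕ) + d < n) with hm''
  have hmm : m' + m'' = m := Finsupp.filter_add_filter_not m _
  have hs' : ∀ i ∈ m'.support, (i : ℕ) + d < n := by
    intro i hi
    rw [hm', Finsupp.support_filter, mem_filter] at hi
    exact hi.2
  have hs'' : ∀ i ∈ m''.support, ¬ (i : ℕ) + d < n := by
    intro i hi
    rw [hm'', Finsupp.support_filter, mem_filter] at hi
    exact hi.2
  have hsub : phi m' ⊆ phi m := by
    rw [← hmm]
    refine phi_sub m' m'' fun i hi j hj => ?_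
    have h1 := hs' i hi
    have h2 := hs'' j hj
    rw [Fin.le_iff_val_le_val]
    omega
  have hsum1 : ∑ i ∈ (univ : Finset (Fin n)).filter (fun i : Fin n => (i : ℕ) + d < n), m i =
      m'.degree := by
    rw [Finsupp.degree_eq_sum, Finset.sum_filter]
    refine Finset.sum_congr rfl fun i _ => ?_
    rw [hm', Finsupp.filter_apply]
  have hna' : ¬ Allowed n d m' := by
    intro hal
    apply hna
    unfold Allowed at hal ⊢
    have h1 : ∀ i ∈ (univ : Finset (Fin n)).filter (fun i : Fin n => (i : ℕ) + d < n),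
        m' i = m i := by
      intro i hi
      rw [hm', Finsupp.filter_apply, if_pos (mem_filter.1 hi).2]
    have h2 : ∀ i ∈ (univ : Finset (Fin n)).filter (fun i : Fin n => (i : ℕ) + d + 1 = n),
        m' i = m i := by
      intro i hi
      have := (mem_filter.1 hi).2
      rw [hm', Finsupp.filter_apply, if_pos (by omega)]
    rw [sum_congr rfl h1, sum_congr rfl h2] at hal
    exact hal
  have hr : d < 2 * m'.degree := by
    have h3 := hna
    unfold Allowed at h3
    rw [not_le, hsum1] at h3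
    omega
  refine ⟨m', m'', by rw [hmm], hr, ⟨⟨m', ?_, fun x hx => hm2 x (hsub hx), rfl⟩,
    ?_, phi_card m', ?_⟩, ?_⟩
  · intro hg
    apply hm1
    rw [← hmm, add_comm]
    exact gin_mul _ _ _ hg
  · rintro ⟨m2, h1, h2, h3⟩
    have h4 := phi_inj m' m2 h3
    rw [← h4] at h1
    obtain ⟨hcx, hce⟩ := cyc' n d hd hdn
    exact h1 (g1' k hk n d (cyc n d) hdn hcx hce m' hna')
  · intro x hx
    unfold phi at hx
    rw [mem_image] at hx
    obtain ⟨j, -, rfl⟩ := hx
    have h1 := (mem_idx m' _).1 (List.get_mem (idxList m') j)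
    obtain ⟨i, hi, hi'⟩ := h1
    have h2 := hs' i hi
    have h3 : (j : ℕ) < m'.degree := lt_of_lt_of_eq j.2 (idx_len m')
    rw [← hi']
    omega
  · intro i hi
    have h1 := hs'' i hi
    refine ⟨by omega, ?_⟩
    rw [phi_card]
    refine W398.KS.phi_lt n m hm2 i ?_
    rw [hm'', Finsupp.support_filter, mem_filter] at hi
    exact hi.1

/-- monomials in the last variables, as multisets -/
noncomputable def tail {n : ℕ} (a N q : ℕ) (hN : a + N ≤ n) (s : Sym (Fin N) q) : Fin n →₀ ℕ :=
  Multiset.toFinsupp (s.1.map (fun j : Fin N => (⟨a + j, by omega⟩ : Fin n)))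

theorem exists_tail {n : ℕ} (a N : ℕ) (hN : a + N ≤ n) (m : Fin n →₀ ℕ)
    (h : ∀ i ∈ m.support, a ≤ (i : ℕ) ∧ (i : ℕ) < a + N) :
    ∃ s : Sym (Fin N) m.degree, tail a N m.degree hN s = m := by
  classical
  rcases Nat.eq_zero_or_pos N with rfl | hpos
  · have h0 : m = 0 := by
      rw [← Finsupp.support_eq_empty]
      refine eq_empty_of_forall_notMem fun i hi => ?_
      have := h i hi
      omega
    subst h0
    refine ⟨⟨0, by simp⟩, ?_⟩
    unfold tail
    simp
  · let f : Fin n → Fin N := fun i => ⟨min ((i : ℕ) - a) (N - 1), by omega⟩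
    have hc : (Multiset.map f (Finsupp.toMultiset m)).card = m.degree := by
      rw [Multiset.card_map, Finsupp.card_toMultiset]
      rfl
    refine ⟨⟨Multiset.map f (Finsupp.toMultiset m), hc⟩, ?_⟩
    unfold tail
    show Multiset.toFinsupp (Multiset.map (fun j : Fin N => (⟨a + j, by omega⟩ : Fin n))
      (Multiset.map f (Finsupp.toMultiset m))) = m
    rw [Multiset.map_map]
    have h2 : Multiset.map ((fun j : Fin N => (⟨a + j, by omega⟩ : Fin n)) ∘ f)
        (Finsupp.toMultiset m) = Multiset.map id (Finsupp.toMultiset m) := by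
      refine Multiset.map_congr rfl fun i hi => ?_
      rw [Finsupp.mem_toMultiset] at hi
      have := h i hi
      apply Fin.ext
      show a + min ((i : ℕ) - a) (N - 1) = (i : ℕ)
      omega
    rw [h2, Multiset.map_id, Finsupp.toMultiset_toFinsupp]

open Classical in
/-- the inverse of `phi` -/
noncomputable def inv {n : ℕ} (T : Finset ℕ) : Fin n →₀ ℕ :=
  if h : ∃ m : Fin n →₀ ℕ, phi m = T then h.choose else 0

theorem inv_phi {n : ℕ} (m : Fin n →₀ ℕ) : inv (n := n) (phi m) = m := by
  unfold inv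
  rw [dif_pos ⟨m, rfl⟩]
  exact phi_inj _ _ (Exists.choose_spec (⟨m, rfl⟩ : ∃ m' : Fin n →₀ ℕ, phi m' = phi m))

/-- exceptional faces -/
def exc {n : ℕ} (k : Type) [Field k] (L : Finset (Finset (Fin n))) (d t : ℕ) : Set (Finset ℕ) :=
  {S | S ∈ shift k L ∧ S ∉ shift k (cyc n d) ∧ S.card = t ∧ ∀ x ∈ S, x + d + 1 < n + t}

theorem shift_fin (k : Type) [Field k] {n : ℕ} (L : Finset (Finset (Fin n)))
    (T : Set (Finset ℕ)) (hT : T ⊆ shift k L) : T.Finite := by
  refine Set.Finite.subset (Finset.finite_toSet (Finset.range n).powerset) ?_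
  intro S hS
  obtain ⟨mm, -, hx, rfl⟩ := hT hS
  rw [Finset.mem_coe, Finset.mem_powerset]
  intro x hxx
  exact Finset.mem_range.2 (hx x hxx)

/-- the number of all faces outside -/
theorem out_count (k : Type) [Field k] (hinf : Infinite k) (hk : CharZero k ∨ CharP k 2) (n d : ℕ)
    (L : Finset (Finset (Fin n))) (hd : 1 ≤ d) (hdn : d < n) (s : ℕ) (hs : 1 ≤ s) :
    {S | S ∈ shift k L ∧ S ∉ shift k (cyc n d) ∧ S.card = s}.ncard ≤
      ∑ t ∈ (range (s + 1)).filter (fun t => d < 2 * t),
        (exc k L d t).ncard * Nat.multichoose (d + 1 - s) (s - t) := by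
  classical
  have hfin : ∀ t, (exc k L d t).Finite := fun t => shift_fin k L _ fun S hS => hS.1
  have hN : n - d + (d + 1 - s) ≤ n := by omega
  let U : Finset (Finset ℕ) := ((range (s + 1)).filter (fun t => d < 2 * t)).biUnion (fun t =>
    ((hfin t).toFinset ×ˢ (univ : Finset (Sym (Fin (d + 1 - s)) (s - t)))).image
      (fun p => phi (inv (n := n) p.1 + tail (n - d) (d + 1 - s) (s - t) hN p.2)))
  have hsub : {S | S ∈ shift k L ∧ S ∉ shift k (cyc n d) ∧ S.card = s} ⊆ (U : Set (Finset ℕ)) := by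
    rintro S ⟨h1, h2, h3⟩
    obtain ⟨m', m'', hS, hr, ⟨e1, e2, e3, e4⟩, h5⟩ := fin3 k hinf hk n d L hd hdn S h1 h2
    have hdeg : m'.degree + m''.degree = s := by
      rw [← h3, hS, phi_card, map_add]
    obtain ⟨w, hw⟩ := exists_tail (n - d) (d + 1 - s) hN m'' (fun i hi => by
      have := h5 i hi
      rw [h3] at this
      omega)
    rw [mem_coe, mem_biUnion]
    refine ⟨m'.degree, mem_filter.2 ⟨mem_range.2 (by omega), hr⟩, ?_⟩
    rw [mem_image]
    have hq : m''.degree = s - m'.degree := by omega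
    have key : ∀ q, ∀ hq : m''.degree = q, ∃ w' : Sym (Fin (d + 1 - s)) q,
        tail (n - d) (d + 1 - s) q hN w' = m'' := by
      rintro q rfl
      exact ⟨w, hw⟩
    obtain ⟨w', hw'⟩ := key _ hq
    refine ⟨(phi m', w'), ?_, ?_⟩
    · rw [mem_product]
      refine ⟨?_, mem_univ _⟩
      rw [Set.Finite.mem_toFinset]
      exact ⟨e1, e2, e3, e4⟩
    · simp only
      rw [hw', inv_phi, hS]
  refine (Set.ncard_le_ncard hsub (Finset.finite_toSet U)).trans ?_
  rw [Set.ncard_coe_finset]
  refine card_biUnion_le.trans (sum_le_sum fun t _ => ?_)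
  refine card_image_le.trans ?_
  rw [card_product, card_univ, Sym.card_sym_fin_eq_multichoose,
    Set.ncard_eq_toFinset_card _ (hfin t)]

/-- **all faces outside** -/
theorem out (k : Type) [Field k] (hinf : Infinite k) (hk : CharZero k ∨ CharP k 2) (n d m : ℕ)
    (L : Finset (Finset (Fin n))) (b : Fin m → ℕ)
    (β α : Fin m → Finset (Fin n) → ZMod 2) (hd : 1 ≤ d) (hdn : d < n) (hL : IsCx L)
    (h : Hyp L d b β α) (s : ℕ) :
    {S | S ∈ shift k L ∧ S ∉ shift k (cyc n d) ∧ S.card = s}.Finite ∧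
    {S | S ∈ shift k L ∧ S ∉ shift k (cyc n d) ∧ S.card = s}.ncard ≤
      d.choose s * ∑ t ∈ (range (s + 1)).filter (fun t => d < 2 * t),
        s.choose t * nf d b t := by
  classical
  refine ⟨shift_fin k L _ fun S hS => hS.1, ?_⟩
  obtain ⟨hb, -⟩ := H37.KR.main k hk n d m L b β α hd hdn hL h
  rcases Nat.eq_zero_or_pos s with rfl | hs
  · have h0 : {S | S ∈ shift k L ∧ S ∉ shift k (cyc n d) ∧ S.card = 0} = ∅ := by
      rw [Set.eq_empty_iff_forall_notMem]
      rintro S ⟨h1, h2, h3⟩
      obtain ⟨m', m'', hS, hr, -, -⟩ := fin3 k hinf hk n d L hd hdn S h1 h2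
      rw [hS, phi_card, map_add] at h3
      omega
    rw [h0, Set.ncard_empty]
    exact Nat.zero_le _
  · refine (out_count k hinf hk n d L hd hdn s hs).trans ?_
    rw [mul_sum]
    refine sum_le_sum fun t ht => ?_
    rw [mem_filter, mem_range] at ht
    have h1 : (exc k L d t).ncard ≤ d.choose t * nf d b t := hb t ht.2
    refine (Nat.mul_le_mul_right _ h1).trans ?_
    by_cases hsd : s ≤ d
    · rw [Nat.multichoose_eq, show d + 1 - s + (s - t) - 1 = d - t by omega]
      have h2 := Nat.choose_mul (n := d) (k := s) (s := t) (by omega)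
      refine le_of_eq ?_
      calc d.choose t * nf d b t * (d - t).choose (s - t)
          = (d.choose t * (d - t).choose (s - t)) * nf d b t := by ring
        _ = (d.choose s * s.choose t) * nf d b t := by rw [h2]
        _ = d.choose s * (s.choose t * nf d b t) := by ring
    · rcases Nat.lt_or_ge t s with hlt | hge
      · obtain ⟨q, hq⟩ : ∃ q, s - t = q + 1 := ⟨s - t - 1, by omega⟩
        rw [hq, show d + 1 - s = 0 by omega, Nat.multichoose_zero_succ, mul_zero]
        exact Nat.zero_le _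
      · have : d.choose t = 0 := Nat.choose_eq_zero_of_lt (by omega)
        rw [this, zero_mul, zero_mul]
        exact Nat.zero_le _

end Pool.Agent.H67.KR
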