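import Mathlib
import Pool.Agent.H67.KR.Cert

/-!
Certificates for the complete graphs on `6` and `7` vertices (triangulations of the projective
plane and of the torus) and for the complete 2-dimensional complex on `9` vertices (the triangulation
of the complex projective plane).
-/

set_option autoImplicit false

namespace Pool.Agent.H67.KR

open Finset Pool.Agent.W555.KS Pool.Agent.Y131.KS

/-- the code of a set -/
def msk {n : ℕ} (σ : Finset (Fin n)) : ℕ := ∑ i ∈ σ, 2 ^ (i : ℕ)

/-- `0` or `1` -/
def bt (c a : ℕ) : ℕ := if Nat.testBit c a then 1 else 0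

def Q6 (r : ℕ) : ℕ := if r = 4 then 1116691496960 else if r = 8 then 85900394592 else
  if r = 16 then 1185410973696 else 0

theorem c6 : ∀ σ ∈ powersetCard 2 (univ : Finset (Fin 6)),
    ∀ τ ∈ powersetCard 2 (univ : Finset (Fin 6)),
    Disjoint σ τ → (∃ v ∈ σ, ∀ w ∈ σ ∪ τ, v ≤ w) →
      ((if evenPart (σ ∪ τ) = σ then 1 else 0) + bt 17039968 (msk σ) * bt 17039968 (msk τ)) % 2 =
        (∑ v ∈ σ, bt (Q6 (msk (σ.erase v))) (msk τ) +
          ∑ v ∈ τ, bt (Q6 (msk (τ.erase v))) (msk σ)) % 2 := by
  decide +kernel

def Q7 (r : ℕ) : ℕ :=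
  if r = 2 then 79229376162450435092363870208 else
  if r = 4 then 79229376236237411387202076672 else
  if r = 8 then 1209294754496189266395176 else
  if r = 16 then 5091301365529247220264 else
  if r = 32 then 1214017120978973012268072 else
  0

theorem c7 : ∀ σ ∈ powersetCard 2 (univ : Finset (Fin 7)),
    ∀ τ ∈ powersetCard 2 (univ : Finset (Fin 7)),
    Disjoint σ τ → (∃ v ∈ σ, ∀ w ∈ σ ∪ τ, v ≤ w) →
      ((if evenPart (σ ∪ τ) = σ then 1 else 0) +
        (bt 281552286126600 (msk σ) * bt 68720793088 (msk τ) + bt 68720793088 (msk σ) * bt 281552286126600 (msk τ))) % 2 =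
        (∑ v ∈ σ, bt (Q7 (msk (σ.erase v))) (msk τ) +
          ∑ v ∈ τ, bt (Q7 (msk (τ.erase v))) (msk σ)) % 2 := by
  decide +kernel

/-- the code of the cocycle on `9` vertices -/
def P9 : ℕ := 138096238184353340339858727337032619586146857281027619954688

def Q9 (r : ℕ) : ℕ :=
  if r = 12 then 8543948145672933275219233393299737450998101449828435682977557301050734810695200188141981849878528 else
  if r = 20 then 726838724295606900793845418959743124010152072900404974649975284225241066254800751351147665867896422567346321100845787978957059493199872 else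
  if r = 24 then 788040123927889584288300542721290477749495219532699975651019958532076720861642551478836847904047153046985000722890752 else
  if r = 34 then 726838724295609472799201894796594190819626044894947313749300810912628379572953645216022819068239898948125303356351333546870073840369664 else
  if r = 36 then 726838724295609472799201894796594190828169993038630984433082338764323321147956757422932346435634925569094201819042797917341378519498752 else
  if r = 40 then 726838724295609472799201894796594190272813363699192541758290233539235784355715934561227649349804419331005869825856430164811706930298880 else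
  if r = 48 then 10874953710204876263178547489553808592943034029551259663984075427742255373438624501545011600694524926952215036607602688 else
  if r = 68 then 30354201441027016733116592294117482916376809840983802512125711775262098802329255936 else
  if r = 72 then 9946616499202937978191310545897887389452934932742777326185913863076391905508469738831872 else
  if r = 80 then 10874953710204876262589015067776898623451109151883348780842251531439545106553308987799647014001579566025526490993532928 else
  if r = 96 then 401413413573551216547642928907670507413831680 else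
  if r = 132 then 30354201441027016733116592294117482916287606860189680019564404605449963873004158976 else
  if r = 136 then 42719740728364818147103372101582352837951977836556759852922087453653771856156805368002103662870528 else
  if r = 144 then 137261213249101113234885500488522551867725897620067970013589924595365958132637400599363584 else
  if r = 160 then 140573578808026934342581168526430563766233190025336032095754702293995924593077934320046220482558566400 else
  if r = 192 then 73185727600402432 else
  if r = 264 then 10889035741470030831418283248312729468928 else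
  if r = 288 then 10889035741470030831418283248175290523648 else
  if r = 320 then 44612379432802716313902264533297627020664832 else
  if r = 384 then 2417851639792208338485248 else
  0

theorem c9 : ∀ σ ∈ powersetCard 3 (univ : Finset (Fin 9)),
    ∀ τ ∈ powersetCard 3 (univ : Finset (Fin 9)),
    Disjoint σ τ → (∃ v ∈ σ, ∀ w ∈ σ ∪ τ, v ≤ w) →
      ((if evenPart (σ ∪ τ) = σ then 1 else 0) + bt P9 (msk σ) * bt P9 (msk τ)) % 2 =
        (∑ v ∈ σ, bt (Q9 (msk (σ.erase v))) (msk τ) +
          ∑ v ∈ τ, bt (Q9 (msk (τ.erase v))) (msk σ)) % 2 := by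
  decide +kernel

theorem par {a b : ℕ} (h : a % 2 = b % 2) : (a : ZMod 2) = (b : ZMod 2) :=
  (ZMod.natCast_eq_natCast_iff' a b 2).2 h

open Classical in
/-- six vertices, the projective plane -/
theorem sharp6 (L : Finset (Finset (Fin 6))) : ∃ ψ : Finset (Fin 6) → Fin 1 → ZMod 2,
    ∀ Z : Finset (Fin 6) → Finset (Fin 6) → ZMod 2, H67.KS.MidCyc L 2 Z →
      ∑ U ∈ powersetCard (2 * 2) univ, Z (evenPart U) (oddPart U) =
        ∑ σ, ∑ τ, if mn σ τ then (∑ i, ∑ j, (fun _ _ => 1 : Fin 1 → Fin 1 → ZMod 2) i j *
          ψ σ i * ψ τ j) * Z σ τ else 0 := by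
  refine ⟨fun σ _ => (bt 17039968 (msk σ) : ZMod 2), fun Z hZ => ?_⟩
  refine cert (by norm_num) L _ _
    (fun ρ τ => (bt (Q6 (msk ρ)) (msk τ) : ZMod 2)) ?_ Z hZ
  intro σ τ h1 h2 h3 h4
  have h := par (c6 σ (mem_powersetCard.2 ⟨subset_univ _, h1⟩) τ
    (mem_powersetCard.2 ⟨subset_univ _, h2⟩) h3 h4)
  push_cast at h
  simpa using h

open Classical in
/-- seven vertices, the torus -/
theorem sharp7 (L : Finset (Finset (Fin 7))) : ∃ ψ : Finset (Fin 7) → Fin 2 → ZMod 2,
    ∀ Z : Finset (Fin 7) → Finset (Fin 7) → ZMod 2, H67.KS.MidCyc L 2 Z →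
      ∑ U ∈ powersetCard (2 * 2) univ, Z (evenPart U) (oddPart U) =
        ∑ σ, ∑ τ, if mn σ τ then (∑ i, ∑ j, (fun i j => if i = j then 0 else 1 :
          Fin 2 → Fin 2 → ZMod 2) i j * ψ σ i * ψ τ j) * Z σ τ else 0 := by
  refine ⟨fun σ i => if i = 0 then (bt 281552286126600 (msk σ) : ZMod 2) else
    (bt 68720793088 (msk σ) : ZMod 2), fun Z hZ => ?_⟩
  refine cert (by norm_num) L _ _
    (fun ρ τ => (bt (Q7 (msk ρ)) (msk τ) : ZMod 2)) ?_ Z hZ
  intro σ τ h1 h2 h3 h4
  have h := par (c7 σ (mem_powersetCard.2 ⟨subset_univ _, h1⟩) τ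
    (mem_powersetCard.2 ⟨subset_univ _, h2⟩) h3 h4)
  push_cast at h
  simpa [Fin.sum_univ_two] using h

open Classical in
/-- nine vertices, the complex projective plane -/
theorem sharp9 (L : Finset (Finset (Fin 9))) : ∃ ψ : Finset (Fin 9) → Fin 1 → ZMod 2,
    ∀ Z : Finset (Fin 9) → Finset (Fin 9) → ZMod 2, H67.KS.MidCyc L 3 Z →
      ∑ U ∈ powersetCard (2 * 3) univ, Z (evenPart U) (oddPart U) =
        ∑ σ, ∑ τ, if mn σ τ then (∑ i, ∑ j, (fun _ _ => 1 : Fin 1 → Fin 1 → ZMod 2) i j *
          ψ σ i * ψ τ j) * Z σ τ else 0 := by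
  refine ⟨fun σ _ => (bt P9 (msk σ) : ZMod 2), fun Z hZ => ?_⟩
  refine cert (by norm_num) L _ _
    (fun ρ τ => (bt (Q9 (msk ρ)) (msk τ) : ZMod 2)) ?_ Z hZ
  intro σ τ h1 h2 h3 h4
  have h := par (c9 σ (mem_powersetCard.2 ⟨subset_univ _, h1⟩) τ
    (mem_powersetCard.2 ⟨subset_univ _, h2⟩) h3 h4)
  push_cast at h
  simpa using h

end Pool.Agent.H67.KR
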