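import Mathlib
import Pool.Agent.H37.KR.Fin
import Pool.Agent.H37.KR.T2b
import Pool.Agent.H36.KR.L
import Pool.Graph.R_seed8.W563.KS.DStep
import Pool.Graph.R_seed8.W386.KS.DLow
import Pool.Graph.R_seed8.W374.KS.Min
import Pool.Graph.R_seed8.W839.KS.DTop1
import Pool.Graph.R_seed8.W925.KS.DTop2
import Pool.Graph.R_seed8.W689.KS.DD
import Pool.Graph.R_seed8.W386.KS.Supp
import Pool.Graph.R_seed8.W410.KalSar.GCnt
import Pool.Graph.R_seed8.W682.KS.GNum
import Pool.Graph.R_seed8.Y131.KS.Chain

/-!
The numbers of faces of complexes whose obstruction is a sum of products.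
-/

set_option autoImplicit false

namespace Pool.Agent.H67.KR.UB

open Finset MvPolynomial Pool.Agent.W555.KS Pool.Agent.H37.KR Pool.Agent.Y131.KS

/-- the additional terms -/
def ex (d : ℕ) {m : ℕ} (b : Fin m → ℕ) (r : ℕ) : ℕ :=
  if d < 2 * r then d.choose r * nf d b r else 0

theorem topJ2 (n d m : ℕ) (L : Finset (Finset (Fin n))) (b : Fin m → ℕ)
    (β α : Fin m → Finset (Fin n) → ZMod 2) (hL : IsCx L) (h : Hyp L d b β α) (r : ℕ)
    (hr : d < 2 * r) :
    dimQ (Ij n d d L) r ≤ (if r ≤ d then dimQ (Ij n d d L) (d - r) else 0) +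
      d.choose r * nf d b r := by
  classical
  obtain ⟨J, hJ1, hJ2, hJ3⟩ := stT2J n d m L b β α hL h r hr
  set I := Ij n d d L with hI
  let S : Submodule (Kf (d + 1) n) (MvPolynomial (Fin n) (Kf (d + 1) n) ⧸ I) :=
    Submodule.span (Kf (d + 1) n)
      ((J.image (fun β => Ideal.Quotient.mk I (monomial β 1)) : Finset _) :
        Set (MvPolynomial (Fin n) (Kf (d + 1) n) ⧸ I))
  have hSfin : Module.Finite (Kf (d + 1) n) S := FiniteDimensional.span_finset _ _
  have hScard : Module.finrank (Kf (d + 1) n) S ≤ d.choose r * nf d b r :=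
    (finrank_span_finset_le_card _).trans (card_image_le.trans hJ2)
  have key : ∀ p : MvPolynomial (Fin n) (Kf (d + 1) n), p.IsHomogeneous r →
      ∃ f : MvPolynomial (Fin n) (Kf (d + 1) n), ∃ s ∈ S, Ideal.Quotient.mk I p =
        Ideal.Quotient.mk I (homogeneousComponent r
          (lf (gen (d + 1) n (Fin.last d)) ^ (2 * r - d) * f)) + s := by
    intro p hp
    have h1 := hJ3 p hp
    rw [W925.KS.Ij_eq] at h1
    obtain ⟨x, hx, y, hy, e⟩ := Submodule.mem_sup.1 h1
    obtain ⟨i, hi, z, hz, e2⟩ := Submodule.mem_sup.1 hx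
    obtain ⟨f, rfl⟩ := Ideal.mem_span_singleton'.1 hz
    have h2 := homogeneousComponent_mem_of_mem (W925.KS.homog_Ij d d L) hi r
    have h3 : homogeneousComponent r p = p := homogeneousComponent_eq_self hp
    have hy' : y ∈ Ideal.span (Set.range (fun β : J => monomial β.1 (1 : Kf (d + 1) n))) := by
      have e : (fun m => monomial m (1 : Kf (d + 1) n)) '' (J : Set (Fin n →₀ ℕ)) =
          Set.range (fun β : J => monomial β.1 (1 : Kf (d + 1) n)) := by
        ext x
        constructor
        · rintro ⟨β, hβ, rfl⟩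
          exact ⟨⟨β, hβ⟩, rfl⟩
        · rintro ⟨β, rfl⟩
          exact ⟨β.1, β.2, rfl⟩
      rw [← e]
      exact hy
    have h4 := H36.KR.component_span (fun β : J => monomial β.1 (1 : Kf (d + 1) n))
      (fun β => isHomogeneous_monomial 1 (hJ1 β.1 β.2)) y hy'
    have h6 := Submodule.mem_map_of_mem
      (f := (Ideal.Quotient.mkₐ (Kf (d + 1) n) I).toLinearMap) h4
    rw [Submodule.map_span, ← Set.range_comp] at h6
    have h7 : Ideal.Quotient.mk I (homogeneousComponent r y) ∈ S := by
      refine Submodule.span_mono ?_ h6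
      rintro _ ⟨β, rfl⟩
      rw [mem_coe, mem_image]
      exact ⟨β.1, β.2, rfl⟩
    refine ⟨f, _, h7, ?_⟩
    rw [← e, ← e2, map_add, map_add] at h3
    rw [← e, ← e2, ← h3, map_add, map_add, Ideal.Quotient.eq_zero_iff_mem.2 h2, zero_add,
      mul_comm f]
  have hw : (lf (gen (d + 1) n (Fin.last d)) ^ (2 * r - d)).IsHomogeneous (2 * r - d) := by
    have := (W925.KS.isHomogeneous_lf (gen (d + 1) n (Fin.last d))).pow (2 * r - d)
    rwa [one_mul] at this
  split_ifs with hrd
  · let T := Submodule.map (LinearMap.mulLeft (Kf (d + 1) n)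
        (Ideal.Quotient.mk I (lf (gen (d + 1) n (Fin.last d)) ^ (2 * r - d))))
        (W925.KS.im I (d - r))
    have hle : W925.KS.im I r ≤ T ⊔ S := by
      rintro _ ⟨p, hp, rfl⟩
      obtain ⟨f, s, hs, hf⟩ := key p hp
      rw [W925.KS.hc_mul hw, if_pos (by omega), show r - (2 * r - d) = d - r by omega] at hf
      show Ideal.Quotient.mk I p ∈ T ⊔ S
      rw [hf]
      refine Submodule.add_mem_sup ?_ hs
      refine ⟨_, ⟨homogeneousComponent (d - r) f, homogeneousComponent_mem _ _, rfl⟩, ?_⟩
      rw [map_mul]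
      rfl
    have hTfin : Module.Finite (Kf (d + 1) n) T := inferInstance
    refine (Submodule.finrank_mono hle).trans ((Submodule.finrank_add_le_finrank_add_finrank T S).trans ?_)
    exact Nat.add_le_add (Submodule.finrank_map_le _ _) hScard
  · have hle : W925.KS.im I r ≤ S := by
      rintro _ ⟨p, hp, rfl⟩
      obtain ⟨f, s, hs, hf⟩ := key p hp
      rw [W925.KS.hc_mul hw, if_neg (by omega), map_zero, zero_add] at hf
      show Ideal.Quotient.mk I p ∈ S
      rw [hf]
      exact hs
    rw [zero_add]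
    exact (Submodule.finrank_mono hle).trans hScard

theorem topJ (n d m : ℕ) (hdn : d < n) (L : Finset (Finset (Fin n))) (b : Fin m → ℕ)
    (β α : Fin m → Finset (Fin n) → ZMod 2) (hL : IsCx L) (h : Hyp L d b β α) (r : ℕ) :
    dimQ (Ij n d d L) r ≤ Nh n d r + ex d b r := by
  unfold Nh ex
  by_cases h2 : d < 2 * r
  · rw [if_pos h2]
    have h3 := topJ2 n d m L b β α hL h r h2
    by_cases hr : d < r
    · rw [if_pos hr]
      rw [if_neg (by omega)] at h3
      exact h3
    · rw [if_neg hr, min_eq_right (by omega)]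
      rw [if_pos (by omega)] at h3
      have h4 := W839.KS.DTop1.dtop1 W374.KS.minor n d L hdn (d - r)
      omega
  · rw [if_neg h2, if_neg (by omega), min_eq_left (by omega)]
    exact W839.KS.DTop1.dtop1 W374.KS.minor n d L hdn r

/-- the iterated sums -/
def E (d : ℕ) {m : ℕ} (b : Fin m → ℕ) (i r : ℕ) : ℕ :=
  ∑ t ∈ range (r + 1), Nat.multichoose i (r - t) * ex d b t

theorem E_zero (d : ℕ) {m : ℕ} (b : Fin m → ℕ) (r : ℕ) : ex d b r ≤ E d b 0 r := by
  unfold E
  have h : ex d b r = Nat.multichoose 0 (r - r) * ex d b r := by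
    rw [Nat.sub_self, Nat.multichoose_zero_right, one_mul]
  conv_lhs => rw [h]
  exact single_le_sum (f := fun t => Nat.multichoose 0 (r - t) * ex d b t)
    (fun _ _ => Nat.zero_le _) (mem_range.2 (Nat.lt_succ_self r))

theorem E_succ (d : ℕ) {m : ℕ} (b : Fin m → ℕ) (i r : ℕ) :
    E d b (i + 1) (r + 1) = E d b (i + 1) r + E d b i (r + 1) := by
  unfold E
  rw [sum_range_succ (fun t => Nat.multichoose (i + 1) (r + 1 - t) * ex d b t) (r + 1),
    sum_range_succ (fun t => Nat.multichoose i (r + 1 - t) * ex d b t) (r + 1), Nat.sub_self,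
    Nat.multichoose_zero_right, Nat.multichoose_zero_right, ← add_assoc, ← sum_add_distrib]
  congr 1
  refine sum_congr rfl fun t ht => ?_
  rw [mem_range] at ht
  obtain ⟨s, hs⟩ : ∃ s, r = t + s := ⟨r - t, by omega⟩
  rw [show r + 1 - t = s + 1 by omega, show r - t = s by omega, Nat.multichoose_succ_succ]
  ring

theorem dimQ_leJ (n d m : ℕ) (hdn : d < n) (L : Finset (Finset (Fin n))) (b : Fin m → ℕ)
    (β α : Fin m → Finset (Fin n) → ZMod 2) (hL : IsCx L) (h : Hyp L d b β α) :
    ∀ i, i ≤ d → ∀ r, dimQ (Ij n d (d - i) L) r ≤ Bd n d i r + E d b i r := by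
  intro i
  induction i with
  | zero =>
    intro _ r
    rw [Nat.sub_zero, Bd]
    exact (topJ n d m hdn L b β α hL h r).trans (Nat.add_le_add_left (E_zero d b r) _)
  | succ i ih =>
    intro hi r
    have hj : d - (i + 1) < d := by omega
    have hj1 : d - (i + 1) + 1 = d - i := by omega
    obtain ⟨h1, h2⟩ := W563.KS.dstep n d (d - (i + 1)) L hj
    induction r with
    | zero =>
      rw [Bd_zero_right]
      exact h2.trans (Nat.le_add_right _ _)
    | succ r ihr =>
      have h3 := h1 r
      rw [hj1] at h3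
      have h4 := ih (by omega) (r + 1)
      rw [Bd, E_succ]
      omega

/-- the closed form -/
theorem E_closed (d : ℕ) {m : ℕ} (b : Fin m → ℕ) (s : ℕ) (hs1 : 1 ≤ s) (hs : s ≤ d) :
    E d b (d - (s - 1)) s = d.choose s *
      ∑ t ∈ (range (s + 1)).filter (fun t => d < 2 * t), s.choose t * nf d b t := by
  unfold E
  rw [mul_sum, sum_filter]
  refine sum_congr rfl fun t ht => ?_
  rw [mem_range] at ht
  unfold ex
  by_cases h : d < 2 * t
  · rw [if_pos h, if_pos h, Nat.multichoose_eq,
      show d - (s - 1) + (s - t) - 1 = d - t by omega]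
    have h1 := Nat.choose_mul (n := d) (k := s) (s := t) (by omega)
    calc (d - t).choose (s - t) * (d.choose t * nf d b t)
        = (d.choose t * (d - t).choose (s - t)) * nf d b t := by ring
      _ = (d.choose s * s.choose t) * nf d b t := by rw [h1]
      _ = d.choose s * (s.choose t * nf d b t) := by ring
  · rw [if_neg h, if_neg h, mul_zero]

/-- **the upper bound** -/
theorem ub (n d m : ℕ) (hd : 1 ≤ d) (hdn : d < n) (L : Finset (Finset (Fin n))) (b : Fin m → ℕ)
    (β α : Fin m → Finset (Fin n) → ZMod 2) (hL : IsCx L) (h : Hyp L d b β α) (s : ℕ) :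
    (L.filter (fun σ => σ.card = s)).card ≤ ((cyc n d).filter (fun σ => σ.card = s)).card +
      d.choose s * ∑ t ∈ (range (s + 1)).filter (fun t => d < 2 * t), s.choose t * nf d b t := by
  classical
  have htop : ∀ σ ∈ L, σ.card ≤ d := by
    intro σ hσ
    by_contra hcon
    obtain ⟨τ, hτ1, hτ2⟩ := exists_subset_card_eq (show d + 1 ≤ σ.card by omega)
    have hτ : τ ∈ L.filter (fun σ => σ.card = d + 1) := mem_filter.2 ⟨hL.2 σ hσ τ hτ1, hτ2⟩
    have h1 := W386.KS.dlow W374.KS.minor n d d L hL le_rfl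
    have h2 := topJ n d m hdn L b β α hL h (d + 1)
    unfold Nh ex at h2
    rw [if_pos (by omega), if_pos (by omega), Nat.choose_succ_self, zero_mul] at h2
    have h3 := card_pos.2 ⟨τ, hτ⟩
    omega
  rcases Nat.eq_zero_or_pos s with rfl | hs
  · obtain ⟨hcx, -⟩ := cyc' n d hd hdn
    refine le_trans ?_ (Nat.le_add_right _ _)
    have h1 : ∅ ∈ (cyc n d).filter (fun σ => σ.card = 0) := mem_filter.2 ⟨hcx.1, rfl⟩
    have h2 := card_pos.2 ⟨_, h1⟩
    have h3 : L.filter (fun σ => σ.card = 0) ⊆ {∅} := by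
      intro σ hσ
      rw [mem_filter, card_eq_zero] at hσ
      rw [mem_singleton]
      exact hσ.2
    have h4 := card_le_card h3
    rw [card_singleton] at h4
    omega
  · by_cases hsd : s ≤ d
    · have h1 := W386.KS.dlow W374.KS.minor n d (s - 1) L hL (by omega)
      have h2 := dimQ_leJ n d m hdn L b β α hL h (d - (s - 1)) (by omega) (s - 1 + 1)
      rw [show d - (d - (s - 1)) = s - 1 by omega] at h2
      have h3 := W682.KS.gnum n d (s - 1) (by omega) hdn
      rw [show s - 1 + 1 = s by omega] at h1 h2 h3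
      rw [E_closed d b s hs hsd] at h2
      have h4 := W689.KS.card_faces W386.KS.supp W410.KalSar.gcnt n d s hsd hdn
      omega
    · have h1 : L.filter (fun σ => σ.card = s) = ∅ := by
        rw [filter_eq_empty_iff]
        intro σ hσ hc
        have := htop σ hσ
        omega
      rw [h1, card_empty]
      exact Nat.zero_le _

end Pool.Agent.H67.KR.UB
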